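import Mathlib

/-! Bundle of small proof modules (one section per former module). -/

section

set_option autoImplicit false

open scoped LinearAlgebra.Projectivization

namespace Pool.Agent.Work.MP_b25393_ag

open Projectivization Matrix

/-- points and lines of the rational projective plane -/
abbrev PP := ℙ ℚ (Fin 3 → ℚ)

/-- incidence -/
abbrev inc (p L : PP) : Prop := ∑ i, p.rep i * L.rep i = 0

lemma inc_comm (p L : PP) : inc p L ↔ inc L p := by
  unfold inc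
  simp only [mul_comm]

lemma inc_mk_mk {v w : Fin 3 → ℚ} (hv : v ≠ 0) (hw : w ≠ 0) :
    inc (mk ℚ v hv) (mk ℚ w hw) ↔ ∑ i, v i * w i = 0 := by
  obtain ⟨a, ha⟩ := exists_smul_eq_mk_rep ℚ v hv
  obtain ⟨b, hb⟩ := exists_smul_eq_mk_rep ℚ w hw
  unfold inc
  rw [← ha, ← hb]
  have : ∑ i, (a • v) i * (b • w) i = ((a : ℚ) * (b : ℚ)) * ∑ i, v i * w i := by
    rw [Finset.mul_sum]
    refine Finset.sum_congr rfl fun i _ => ?_
    simp only [Pi.smul_apply, Units.smul_def, smul_eq_mul]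
    ring
  rw [this, mul_eq_zero]
  constructor
  · rintro (h | h)
    · exact absurd h (mul_ne_zero a.ne_zero b.ne_zero)
    · exact h
  · intro h
    exact Or.inr h

lemma cross_ne_zero_iff (p q : PP) : p.rep ⨯₃ q.rep ≠ 0 ↔ p ≠ q := by
  rw [crossProduct_ne_zero_iff_linearIndependent]
  have h := independent_pair_iff_ne (K := ℚ) p q
  rw [independent_iff] at h
  rw [← h]
  have : Projectivization.rep ∘ ![p, q] = ![p.rep, q.rep] := by
    ext i j
    fin_cases i <;> rfl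
  rw [this]

lemma eq_of_cross_eq_zero {v w : Fin 3 → ℚ} (hv : v ≠ 0) (hw : w ≠ 0) (h : v ⨯₃ w = 0) :
    mk ℚ v hv = mk ℚ w hw := by
  by_contra hne
  rw [← Ne, ← cross_ne_zero_iff] at hne
  obtain ⟨a, ha⟩ := exists_smul_eq_mk_rep ℚ v hv
  obtain ⟨b, hb⟩ := exists_smul_eq_mk_rep ℚ w hw
  apply hne
  rw [← ha, ← hb, Units.smul_def, Units.smul_def, map_smul, map_smul, LinearMap.smul_apply, h,
    smul_zero, smul_zero]

lemma cross_eq_zero_of_eq {v w : Fin 3 → ℚ} (hv : v ≠ 0) (hw : w ≠ 0)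
    (h : mk ℚ v hv = mk ℚ w hw) : v ⨯₃ w = 0 := by
  by_contra hne
  rw [mk_eq_mk_iff'] at h
  obtain ⟨a, ha⟩ := h
  apply hne
  rw [← ha, map_smul, LinearMap.smul_apply, _root_.cross_self, smul_zero]

/-- the common point of two lines -/
noncomputable def meet (L L' : PP) : PP :=
  if h : L.rep ⨯₃ L'.rep ≠ 0 then mk ℚ _ h else L

lemma meet_inc_left {L L' : PP} (h : L ≠ L') : inc (meet L L') L := by
  have hc := (cross_ne_zero_iff L L').mpr h
  unfold meet
  rw [dif_pos hc]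
  conv => rhs; rw [← L.mk_rep]
  rw [inc_mk_mk hc L.rep_nonzero]
  have := dot_self_cross L.rep L'.rep
  rw [dotProduct_comm] at this
  exact this

lemma meet_inc_right {L L' : PP} (h : L ≠ L') : inc (meet L L') L' := by
  have hc := (cross_ne_zero_iff L L').mpr h
  unfold meet
  rw [dif_pos hc]
  conv => rhs; rw [← L'.mk_rep]
  rw [inc_mk_mk hc L'.rep_nonzero]
  have := dot_cross_self L.rep L'.rep
  rw [dotProduct_comm] at this
  exact this

lemma point_unique {L L' p q : PP} (h : L ≠ L') (h1 : inc p L) (h2 : inc p L') (h3 : inc q L)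
    (h4 : inc q L') : p = q := by
  by_contra hne
  have hc := (cross_ne_zero_iff p q).mpr hne
  have key : ∀ M : PP, inc p M → inc q M → M = mk ℚ _ hc := by
    intro M hp hq
    conv => lhs; rw [← M.mk_rep]
    apply eq_of_cross_eq_zero
    rw [cross_cross_eq_smul_sub_smul']
    have e1 : M.rep ⬝ᵥ q.rep = 0 := by rw [dotProduct_comm]; exact hq
    have e2 : M.rep ⬝ᵥ p.rep = 0 := by rw [dotProduct_comm]; exact hp
    have e3 : p.rep ⬝ᵥ M.rep = 0 := hp
    have e4 : q.rep ⬝ᵥ M.rep = 0 := hq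
    simp [e1, e3]
  exact h ((key L h1 h3).trans (key L' h2 h4).symm)

lemma meet_eq {L L' p : PP} (h : L ≠ L') (h1 : inc p L) (h2 : inc p L') : meet L L' = p :=
  point_unique h (meet_inc_left h) (meet_inc_right h) h1 h2

/-- number of lines of `A` through `p` -/
noncomputable def mult (A : Finset PP) (p : PP) : ℕ := (A.filter (fun L => inc p L)).card

/-- the points lying on at least two lines of `A` -/
noncomputable def verts (A : Finset PP) : Finset PP := by
  classical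
  exact A.offDiag.image (fun LL => meet LL.1 LL.2)

lemma mem_verts {A : Finset PP} {p : PP} : p ∈ verts A ↔ 2 ≤ mult A p := by
  classical
  unfold verts mult
  rw [Finset.mem_image]
  constructor
  · rintro ⟨⟨L, L'⟩, hL, rfl⟩
    rw [Finset.mem_offDiag] at hL
    obtain ⟨h1, h2, h3⟩ := hL
    have h3' : L ≠ L' := h3
    have : 1 < (A.filter (fun M => inc (meet L L') M)).card := by
      rw [Finset.one_lt_card]
      exact ⟨L, Finset.mem_filter.mpr ⟨h1, meet_inc_left h3'⟩, L',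
        Finset.mem_filter.mpr ⟨h2, meet_inc_right h3'⟩, h3'⟩
    exact this
  · intro h
    obtain ⟨L, hL, L', hL', hne⟩ := Finset.one_lt_card.mp (show 1 < _ from h)
    rw [Finset.mem_filter] at hL hL'
    exact ⟨(L, L'), Finset.mem_offDiag.mpr ⟨hL.1, hL'.1, hne⟩, meet_eq hne hL.2 hL'.2⟩

lemma sum_mult (A : Finset PP) :
    ∑ p ∈ verts A, mult A p * (mult A p - 1) = A.card * (A.card - 1) := by
  classical
  have h1 : A.offDiag.card = A.card * (A.card - 1) := by
    rw [Finset.offDiag_card, Nat.mul_sub, mul_one]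
  rw [← h1]
  rw [Finset.card_eq_sum_card_fiberwise (f := fun LL : PP × PP => meet LL.1 LL.2) (t := verts A)]
  · refine Finset.sum_congr rfl fun p hp => ?_
    have : (A.offDiag.filter fun LL => meet LL.1 LL.2 = p)
        = (A.filter (fun L => inc p L)).offDiag := by
      ext ⟨L, L'⟩
      simp only [Finset.mem_filter, Finset.mem_offDiag]
      constructor
      · rintro ⟨⟨h1, h2, h3⟩, rfl⟩
        exact ⟨⟨h1, meet_inc_left h3⟩, ⟨h2, meet_inc_right h3⟩, h3⟩
      · rintro ⟨⟨h1, h2⟩, ⟨h3, h4⟩, h5⟩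
        exact ⟨⟨h1, h3, h5⟩, meet_eq h5 h2 h4⟩
    rw [this, Finset.offDiag_card, Nat.mul_sub, mul_one]
    rfl
  · intro LL hLL
    unfold verts
    exact Finset.mem_coe.mpr (Finset.mem_image_of_mem _ hLL)

lemma mult_le_card (A : Finset PP) (p : PP) : mult A p ≤ A.card := Finset.card_filter_le _ _

/-- rewriting the sums over `k` of `g k * t_k` as sums over vertices -/
lemma sum_t (A : Finset PP) (g : ℕ → ℝ) :
    ∑ k ∈ Finset.Icc 2 A.card, g k * (({p : PP |
        (A.filter (fun L => ∑ i, p.rep i * L.rep i = 0)).card = k}.ncard : ℕ) : ℝ)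
      = ∑ p ∈ verts A, g (mult A p) := by
  classical
  have h : ∀ k ∈ Finset.Icc 2 A.card, (({p : PP |
        (A.filter (fun L => ∑ i, p.rep i * L.rep i = 0)).card = k}.ncard : ℕ) : ℝ)
        = (((verts A).filter (fun p => mult A p = k)).card : ℝ) := by
    intro k hk
    rw [Finset.mem_Icc] at hk
    have : {p : PP | (A.filter (fun L => ∑ i, p.rep i * L.rep i = 0)).card = k}
        = ((verts A).filter (fun p => mult A p = k) : Set PP) := by
      ext p
      simp only [Set.mem_ofPred_eq, Finset.coe_filter, mem_verts]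
      constructor
      · intro h
        have h' : mult A p = k := h
        exact ⟨by omega, h'⟩
      · rintro ⟨_, h⟩
        exact h
    rw [this, Set.ncard_coe_finset]
  rw [Finset.sum_congr rfl (fun k hk => by rw [h k hk])]
  have h2 : ∀ p ∈ verts A, mult A p ∈ Finset.Icc 2 A.card := by
    intro p hp
    rw [Finset.mem_Icc]
    exact ⟨mem_verts.mp hp, mult_le_card A p⟩
  rw [← Finset.sum_fiberwise_of_maps_to h2 (fun p => g (mult A p))]
  refine Finset.sum_congr rfl fun k _ => ?_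
  rw [Finset.sum_congr rfl (g := fun _ => g k)]
  · rw [Finset.sum_const, nsmul_eq_mul, mul_comm]
  · intro p hp
    rw [(Finset.mem_filter.mp hp).2]

end Pool.Agent.Work.MP_b25393_ag

end

section

set_option autoImplicit false

open scoped LinearAlgebra.Projectivization

namespace Pool.Agent.Work.MP_b25393_ag

open Projectivization Matrix

/-- the vector `(1, n, n^2)` -/
def vn (n : ℕ) : Fin 3 → ℚ := ![1, (n : ℚ), (n : ℚ) ^ 2]

lemma vn_ne (n : ℕ) : vn n ≠ 0 := by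
  intro h
  have := congrFun h 0
  simp [vn] at this

/-- a sequence of lines in general position -/
noncomputable def gn (n : ℕ) : PP := mk ℚ (vn n) (vn_ne n)

lemma gn_injective : Function.Injective gn := by
  intro m n h
  have h1 := cross_eq_zero_of_eq (vn_ne m) (vn_ne n) h
  rw [cross_apply] at h1
  have h2 := congrFun h1 2
  simp [vn] at h2
  have h3 : (n : ℚ) = m := by linarith
  exact_mod_cast h3.symm

lemma finite_inc_gn (p : PP) : {n : ℕ | inc p (gn n)}.Finite := by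
  set a := p.rep with ha
  have hane : a ≠ 0 := p.rep_nonzero
  let P : Polynomial ℚ := Polynomial.C (a 0) + Polynomial.C (a 1) * Polynomial.X
    + Polynomial.C (a 2) * Polynomial.X ^ 2
  have hP : P ≠ 0 := by
    intro h0
    apply hane
    ext i
    have hc := fun k => congrArg (fun Q => Polynomial.coeff Q k) h0
    fin_cases i
    · have := hc 0
      simpa [P] using this
    · have := hc 1
      simpa [P, Polynomial.coeff_X, Polynomial.coeff_C] using this
    · have := hc 2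
      simpa [P, Polynomial.coeff_X, Polynomial.coeff_C] using this
  have hsub : {n : ℕ | inc p (gn n)} ⊆ (fun n : ℕ => (n : ℚ)) ⁻¹' (P.roots.toFinset : Set ℚ) := by
    intro n hn
    have h1 : inc (mk ℚ a hane) (mk ℚ (vn n) (vn_ne n)) := by
      have : mk ℚ a hane = p := p.mk_rep
      rw [this]
      exact hn
    rw [inc_mk_mk] at h1
    simp only [Set.mem_preimage, Finset.mem_coe, Multiset.mem_toFinset]
    rw [Polynomial.mem_roots hP, Polynomial.IsRoot]
    simp [P]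
    simpa [Fin.sum_univ_three, vn] using h1
  refine Set.Finite.subset (Set.Finite.preimage ?_ (Finset.finite_toSet _)) hsub
  intro a _ b _ h
  have h' : (a : ℚ) = (b : ℚ) := h
  exact_mod_cast h'

lemma exists_generic (A : Finset PP) : ∃ L : PP, L ∉ A ∧ ∀ p ∈ verts A, ¬ inc p L := by
  have h1 : {n : ℕ | gn n ∈ A}.Finite := by
    have : {n : ℕ | gn n ∈ A} = gn ⁻¹' (A : Set PP) := rfl
    rw [this]
    exact Set.Finite.preimage gn_injective.injOn (Finset.finite_toSet _)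
  have h2 : (⋃ p ∈ verts A, {n : ℕ | inc p (gn n)}).Finite :=
    Set.Finite.biUnion (Finset.finite_toSet _) (fun p _ => finite_inc_gn p)
  obtain ⟨n, hn⟩ := (h1.union h2).exists_notMem
  simp only [Set.mem_union, not_or, Set.mem_iUnion, not_exists] at hn
  exact ⟨gn n, hn.1, fun p hp h => hn.2 p hp h⟩

lemma mult_insert {A : Finset PP} {L : PP} [DecidableEq PP] (hL : L ∉ A) (p : PP) :
    mult (insert L A) p = mult A p + if inc p L then 1 else 0 := by
  unfold mult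
  rw [Finset.filter_insert]
  split_ifs with h
  · rw [Finset.card_insert_of_notMem]
    intro h'
    exact hL (Finset.mem_filter.mp h').1
  · simp

lemma verts_insert {A : Finset PP} {L : PP} [DecidableEq PP] (hL : L ∉ A)
    (hg : ∀ p ∈ verts A, ¬ inc p L) :
    verts (insert L A) = verts A ∪ A.image (meet L) := by
  ext p
  rw [Finset.mem_union, mem_verts, mem_verts, mult_insert hL, Finset.mem_image]
  constructor
  · intro h
    by_cases hp : 2 ≤ mult A p
    · exact Or.inl hp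
    · right
      split_ifs at h with hi
      · have h1 : 1 ≤ mult A p := by omega
        obtain ⟨M, hM⟩ := Finset.card_pos.mp (show 0 < (A.filter (fun L => inc p L)).card from h1)
        rw [Finset.mem_filter] at hM
        have hne : L ≠ M := by
          rintro rfl
          exact hL hM.1
        exact ⟨M, hM.1, meet_eq hne hi hM.2⟩
      · omega
  · rintro (h | ⟨M, hM, rfl⟩)
    · omega
    · have hne : L ≠ M := by
        rintro rfl
        exact hL hM
      rw [if_pos (meet_inc_left hne)]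
      have : 0 < (A.filter (fun K => inc (meet L M) K)).card :=
        Finset.card_pos.mpr ⟨M, Finset.mem_filter.mpr ⟨hM, meet_inc_right hne⟩⟩
      have : 0 < mult A (meet L M) := this
      omega

lemma verts_insert_disj {A : Finset PP} {L : PP} [DecidableEq PP] (hL : L ∉ A)
    (hg : ∀ p ∈ verts A, ¬ inc p L) : Disjoint (verts A) (A.image (meet L)) := by
  rw [Finset.disjoint_left]
  intro p hp hp'
  obtain ⟨M, hM, rfl⟩ := Finset.mem_image.mp hp'
  have hne : L ≠ M := by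
    rintro rfl
    exact hL hM
  exact hg _ hp (meet_inc_left hne)

lemma meet_injOn {A : Finset PP} {L : PP} (hL : L ∉ A)
    (hg : ∀ p ∈ verts A, ¬ inc p L) : Set.InjOn (meet L) (A : Set PP) := by
  intro M hM M' hM' h
  by_contra hne
  have h1 : L ≠ M := by
    rintro rfl
    exact hL hM
  have h2 : L ≠ M' := by
    rintro rfl
    exact hL hM'
  have h3 : meet L M ∈ verts A := by
    rw [mem_verts]
    have : 1 < (A.filter (fun K => inc (meet L M) K)).card := by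
      rw [Finset.one_lt_card]
      refine ⟨M, Finset.mem_filter.mpr ⟨hM, meet_inc_right h1⟩, M',
        Finset.mem_filter.mpr ⟨hM', ?_⟩, hne⟩
      rw [h]
      exact meet_inc_right h2
    exact this
  exact hg _ h3 (meet_inc_left h1)

lemma mult_meet_insert {A : Finset PP} {L M : PP} [DecidableEq PP] (hL : L ∉ A)
    (hg : ∀ p ∈ verts A, ¬ inc p L) (hM : M ∈ A) : mult (insert L A) (meet L M) = 2 := by
  have hne : L ≠ M := by
    rintro rfl
    exact hL hM
  rw [mult_insert hL, if_pos (meet_inc_left hne)]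
  have h1 : 0 < mult A (meet L M) :=
    Finset.card_pos.mpr ⟨M, Finset.mem_filter.mpr ⟨hM, meet_inc_right hne⟩⟩
  have h2 : ¬ 2 ≤ mult A (meet L M) := by
    intro h
    exact hg _ (mem_verts.mpr h) (meet_inc_left hne)
  omega

/-- number of vertices -/
noncomputable def f0 (A : Finset PP) : ℕ := (verts A).card

/-- number of incidences of vertices and lines -/
noncomputable def f1 (A : Finset PP) : ℕ := ∑ p ∈ verts A, mult A p

/-- nondegeneracy: no point lies on more than `d - 2` lines -/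
def nondeg (A : Finset PP) : Prop := 3 ≤ A.card ∧ ∀ p, mult A p + 2 ≤ A.card

lemma generic_step (A : Finset PP) (hA : nondeg A) :
    ∃ B : Finset PP, nondeg B ∧ B.card = A.card + 1 ∧ f0 B = f0 A + A.card ∧
      f1 B = f1 A + 2 * A.card := by
  classical
  obtain ⟨L, hL, hg⟩ := exists_generic A
  refine ⟨insert L A, ⟨?_, ?_⟩, Finset.card_insert_of_notMem hL, ?_, ?_⟩
  · rw [Finset.card_insert_of_notMem hL]
    exact hA.1.trans (Nat.le_succ _)
  · intro p
    rw [Finset.card_insert_of_notMem hL, mult_insert hL]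
    have h1 := hA.2 p
    split_ifs with h
    · by_cases hp : 2 ≤ mult A p
      · exact absurd h (hg p (mem_verts.mpr hp))
      · have := hA.1
        omega
    · omega
  · unfold f0
    rw [verts_insert hL hg, Finset.card_union_of_disjoint (verts_insert_disj hL hg),
      Finset.card_image_of_injOn (meet_injOn hL hg)]
  · unfold f1
    rw [verts_insert hL hg, Finset.sum_union (verts_insert_disj hL hg)]
    congr 1
    · refine Finset.sum_congr rfl fun p hp => ?_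
      rw [mult_insert hL, if_neg (hg p hp), add_zero]
    · rw [Finset.sum_image (fun x hx y hy => meet_injOn hL hg hx hy),
        Finset.sum_congr rfl (fun M hM => mult_meet_insert hL hg hM)]
      simp [mul_comm]

lemma generic_steps (A : Finset PP) (hA : nondeg A) (k : ℕ) :
    ∃ B : Finset PP, nondeg B ∧ B.card = A.card + k ∧
      2 * f0 B = 2 * f0 A + 2 * k * A.card + k * (k - 1) ∧
      f1 B = f1 A + 2 * k * A.card + k * (k - 1) := by
  induction k with
  | zero => exact ⟨A, hA, by simp, by simp, by simp⟩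
  | succ k ih =>
    obtain ⟨B, hB, h1, h2, h3⟩ := ih
    obtain ⟨C, hC, h4, h5, h6⟩ := generic_step B hB
    refine ⟨C, hC, by omega, ?_, ?_⟩
    · rw [h5, mul_add, h2, h1]
      rcases k with _ | k
      · simp
      · simp only [Nat.add_sub_cancel]
        ring
    · rw [h6, h3, h1]
      rcases k with _ | k
      · simp
      · simp only [Nat.add_sub_cancel]
        ring

end Pool.Agent.Work.MP_b25393_ag

end

section

set_option autoImplicit false

open scoped LinearAlgebra.Projectivization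

namespace Pool.Agent.Work.MP_b25393_ag

open Projectivization Matrix Filter Topology

/-- the set of Chern slopes of rational line arrangements -/
def slopes : Set ℝ := {s : ℝ | ∃ A : Finset (ℙ ℚ (Fin 3 → ℚ)),
      3 ≤ A.card ∧
      (¬ ∃ p : ℙ ℚ (Fin 3 → ℚ),
          (A.filter (fun L => ∑ i, p.rep i * L.rep i = 0)).card = A.card) ∧
      (¬ ∃ p : ℙ ℚ (Fin 3 → ℚ),
          (A.filter (fun L => ∑ i, p.rep i * L.rep i = 0)).card = A.card - 1) ∧
      s = ((9 : ℝ) - 5 * (A.card : ℝ)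
            + ∑ k ∈ Finset.Icc 2 A.card, (3 * (k : ℝ) - 4) *
                (({p : ℙ ℚ (Fin 3 → ℚ) |
                    (A.filter (fun L => ∑ i, p.rep i * L.rep i = 0)).card = k}.ncard : ℕ) : ℝ))
          / ((3 : ℝ) - 2 * (A.card : ℝ)
            + ∑ k ∈ Finset.Icc 2 A.card, ((k : ℝ) - 1) *
                (({p : ℙ ℚ (Fin 3 → ℚ) |
                    (A.filter (fun L => ∑ i, p.rep i * L.rep i = 0)).card = k}.ncard : ℕ) : ℝ))}

lemma slope_mem (A : Finset PP) (hA : nondeg A) :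
    ((9 : ℝ) - 5 * A.card + 3 * f1 A - 4 * f0 A) / (3 - 2 * A.card + f1 A - f0 A) ∈ slopes := by
  refine ⟨A, hA.1, ?_, ?_, ?_⟩
  · rintro ⟨p, hp⟩
    have h1 := hA.2 p
    have h2 : mult A p = A.card := hp
    omega
  · rintro ⟨p, hp⟩
    have h1 := hA.2 p
    have h2 : mult A p = A.card - 1 := hp
    have := hA.1
    omega
  · have e1 := sum_t A (fun k => 3 * (k : ℝ) - 4)
    have e2 := sum_t A (fun k => (k : ℝ) - 1)
    rw [e1, e2]
    have e3 : ∑ p ∈ verts A, (3 * (mult A p : ℝ) - 4) = 3 * f1 A - 4 * f0 A := by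
      rw [Finset.sum_sub_distrib, ← Finset.mul_sum, Finset.sum_const, nsmul_eq_mul]
      unfold f0 f1
      push_cast
      ring
    have e4 : ∑ p ∈ verts A, ((mult A p : ℝ) - 1) = f1 A - f0 A := by
      rw [Finset.sum_sub_distrib, Finset.sum_const, nsmul_eq_mul]
      unfold f0 f1
      push_cast
      ring
    rw [e3, e4]
    congr 1 <;> ring

lemma two_f0_le (A : Finset PP) : 2 * f0 A ≤ f1 A := by
  unfold f0 f1
  rw [mul_comm, ← smul_eq_mul, ← Finset.sum_const]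
  exact Finset.sum_le_sum (fun p hp => mem_verts.mp hp)

lemma step_bound (d C K η m D1 : ℝ) (hd3 : 3 ≤ d) (hKd : K * d ≤ C) (hK : 1 ≤ K)
    (hη : 0 < η) (h1 : 10 / K ≤ η) (h2 : 20 / d ≤ η) (hm : 0 ≤ m)
    (hD1 : D1 = C + (m + 1) * (2 * d + (m + 1) - 5) / 2) (hD1p : 0 < D1) :
    (2 * (d + m) + 1) / D1 ≤ η := by
  have hKpos : 0 < K := by linarith
  have hdpos : 0 < d := by linarith
  rw [div_le_iff₀ hD1p]
  have hexp : (m + 1) * (2 * d + (m + 1) - 5) / 2 = (m * m) / 2 + m * (d - 3 / 2) + (d - 2) := by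
    ring
  have hmd' : 0 ≤ m * (d - 3 / 2) := mul_nonneg hm (by linarith)
  have hmm : 0 ≤ m * m := mul_nonneg hm hm
  have hCpos : 0 < C := by
    have : 0 < K * d := mul_pos hKpos hdpos
    linarith
  by_cases hmd : m ≤ d
  · have h3 : 10 ≤ η * K := by
      rwa [div_le_iff₀ hKpos] at h1
    have h4 : 10 * d ≤ η * K * d := mul_le_mul_of_nonneg_right h3 hdpos.le
    have h5 : η * (K * d) ≤ η * D1 := by
      apply mul_le_mul_of_nonneg_left _ hη.le
      rw [hD1, hexp]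
      linarith
    have h6 : η * K * d = η * (K * d) := by ring
    linarith
  · rw [not_le] at hmd
    have h3 : 20 ≤ η * d := by
      rwa [div_le_iff₀ hdpos] at h2
    have h4 : η * (d * m / 2) ≤ η * D1 := by
      apply mul_le_mul_of_nonneg_left _ hη.le
      rw [hD1, hexp]
      have : d * m ≤ m * m := mul_le_mul_of_nonneg_right hmd.le hm
      linarith
    have h5 : 20 * m ≤ η * d * m := mul_le_mul_of_nonneg_right h3 hm
    have h6 : η * (d * m / 2) = η * d * m / 2 := by ring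
    linarith

/-- From one arrangement with slope at least `c`, adding general lines gives slopes in every
interval `(r - η, r)`, provided the arrangement is rich enough. -/
lemma exists_slope_near (A : Finset PP) (hA : nondeg A) (c : ℝ) (K : ℝ) (hK : 1 ≤ K)
    (hC : K * A.card ≤ 3 - 2 * A.card + f1 A - f0 A)
    (hs : c ≤ ((9 : ℝ) - 5 * A.card + 3 * f1 A - 4 * f0 A) / (3 - 2 * A.card + f1 A - f0 A))
    (r : ℝ) (hr2 : 2 < r) (hrc : r ≤ c) (η : ℝ) (hη : 0 < η)
    (h1 : 10 / K ≤ η) (h2 : 20 / (A.card : ℝ) ≤ η) :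
    ∃ s ∈ slopes, r - η ≤ s ∧ s < r := by
  set d : ℝ := (A.card : ℝ) with hd
  have hd3 : (3 : ℝ) ≤ d := by rw [hd]; exact_mod_cast hA.1
  set C : ℝ := 3 - 2 * d + f1 A - f0 A with hCdef
  set X : ℝ := 3 - d + f1 A - 2 * f0 A with hX
  have hKd : K * d ≤ C := hC
  have hKpos : 0 < K := by linarith
  have hCd : d ≤ C := by nlinarith
  have hCpos : 0 < C := by linarith
  have hf : (2 : ℝ) * f0 A ≤ f1 A := by exact_mod_cast two_f0_le A
  have hf0 : (0 : ℝ) ≤ f0 A := by positivity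
  have hXC : X ≤ 2 * C := by
    rw [hX]
    have : (3 : ℝ) - d + f1 A - 2 * f0 A ≤ C + d := by rw [hCdef]; linarith
    linarith
  -- the slope after adding k general lines
  let S : ℕ → ℝ := fun k => 2 + (X - k) / (C + k * (2 * d + k - 5) / 2)
  have hden : ∀ k : ℕ, 0 < C + (k : ℝ) * (2 * d + k - 5) / 2 := by
    intro k
    rcases Nat.eq_zero_or_pos k with rfl | hk
    · simpa using hCpos
    · have hk1 : (1 : ℝ) ≤ k := by exact_mod_cast hk
      have : 0 ≤ (k : ℝ) * (2 * d + k - 5) := by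
        apply mul_nonneg (by linarith)
        linarith
      linarith
  have hSmem : ∀ k, S k ∈ slopes := by
    intro k
    obtain ⟨B, hB, hc, hf0, hf1⟩ := generic_steps A hA k
    have hm := slope_mem B hB
    have hkk : ((k * (k - 1) : ℕ) : ℝ) = (k : ℝ) * (k - 1) := by
      rcases k with _ | k
      · simp
      · simp
    have e0 : (f0 B : ℝ) = f0 A + k * d + k * (k - 1) / 2 := by
      have : (2 : ℝ) * f0 B = 2 * f0 A + 2 * k * d + (k : ℝ) * (k - 1) := by
        rw [← hkk, hd]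
        exact_mod_cast hf0
      linarith
    have e1 : (f1 B : ℝ) = f1 A + 2 * k * d + k * (k - 1) := by
      rw [← hkk, hd]
      exact_mod_cast hf1
    have ec : (B.card : ℝ) = d + k := by rw [hc]; push_cast; rfl
    rw [e0, e1, ec] at hm
    convert hm using 1
    have hne := (hden k).ne'
    have hden2 : (3 : ℝ) - 2 * (d + k) + (f1 A + 2 * k * d + k * (k - 1))
        - (f0 A + k * d + k * (k - 1) / 2) = C + k * (2 * d + k - 5) / 2 := by
      rw [hCdef]; ring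
    rw [hden2]
    simp only [S]
    rw [eq_div_iff hne, add_mul, div_mul_cancel₀ _ hne, hX, hCdef]
    ring
  -- S 0 ≥ c
  have hS0 : r ≤ S 0 := by
    refine hrc.trans (hs.trans (le_of_eq ?_))
    have hne := hCpos.ne'
    simp only [S]
    push_cast
    rw [div_eq_iff hne]
    simp only [sub_zero, zero_mul, zero_div, add_zero]
    rw [add_mul, div_mul_cancel₀ _ hne, hX, hCdef]
    ring
  -- eventually S k < r
  have hex : ∃ k, S k < r := by
    obtain ⟨k, hk⟩ := exists_nat_gt X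
    refine ⟨k, ?_⟩
    have : (X - k) / (C + k * (2 * d + k - 5) / 2) ≤ 0 :=
      div_nonpos_of_nonpos_of_nonneg (by linarith) (hden k).le
    simp only [S]
    linarith
  classical
  let k := Nat.find hex
  have hk : S k < r := Nat.find_spec hex
  have hk0 : k ≠ 0 := by
    intro h0
    rw [h0] at hk
    linarith
  obtain ⟨m, hm⟩ : ∃ m, k = m + 1 := ⟨k - 1, by omega⟩
  have hmr : r ≤ S m := by
    have := Nat.find_min hex (show m < Nat.find hex by change m < k; omega)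
    exact not_lt.mp this
  refine ⟨S k, hSmem k, ?_, hk⟩
  -- step estimate
  rw [hm]
  set D0 : ℝ := C + (m : ℝ) * (2 * d + m - 5) / 2 with hD0
  set D1 : ℝ := C + ((m + 1 : ℕ) : ℝ) * (2 * d + ((m + 1 : ℕ) : ℝ) - 5) / 2 with hD1
  have hD0p : 0 < D0 := hden m
  have hD1p : 0 < D1 := hden (m + 1)
  have hmnn : (0 : ℝ) ≤ m := by positivity
  have hdiff : D1 - D0 = d + m - 2 := by
    rw [hD1, hD0]
    push_cast
    ring
  have hXm : (X - m) / D0 ≤ 2 := by
    rw [div_le_iff₀ hD0p]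
    have : D0 ≥ C := by
      rw [hD0]
      rcases Nat.eq_zero_or_pos m with h0 | hmp
      · simp [h0]
      · have hk1 : (1 : ℝ) ≤ m := by exact_mod_cast hmp
        have : 0 ≤ (m : ℝ) * (2 * d + m - 5) := by
          apply mul_nonneg (by linarith)
          linarith
        linarith
    linarith
  have hXm0 : 0 ≤ (X - m) / D0 := by
    have : r ≤ 2 + (X - m) / D0 := hmr
    linarith
  have hstep : S m - S (m + 1) ≤ (2 * (d + m) + 1) / D1 := by
    have e1 : S m - S (m + 1) = (X - m) / D0 - (X - (m + 1 : ℕ)) / D1 := by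
      simp only [S]
      rw [← hD0, ← hD1]
      ring
    rw [e1]
    push_cast
    have e2 : (X - m) / D0 - (X - (m + 1)) / D1
        = ((X - m) / D0 * (D1 - D0) + 1) / D1 := by
      field_simp
      ring
    rw [e2]
    apply div_le_div_of_nonneg_right _ hD1p.le
    rw [hdiff]
    have : (X - m) / D0 * (d + m - 2) ≤ 2 * (d + m - 2) :=
      mul_le_mul_of_nonneg_right hXm (by linarith)
    linarith
  have hbound : (2 * (d + m) + 1) / D1 ≤ η := by
    apply step_bound d C K η m D1 hd3 hKd hK hη h1 h2 hmnn _ hD1p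
    rw [hD1]
    push_cast
    ring
  have : S m - S (m + 1) ≤ η := hstep.trans hbound
  linarith

/-- Density criterion. -/
theorem Icc_subset_derivedSet (c : ℝ)
    (h : ∀ K : ℝ, ∃ A : Finset PP, nondeg A ∧ K ≤ A.card ∧
      K * A.card ≤ 3 - 2 * A.card + f1 A - f0 A ∧
      c ≤ ((9 : ℝ) - 5 * A.card + 3 * f1 A - 4 * f0 A) / (3 - 2 * A.card + f1 A - f0 A))
    (hc : 2 < c) :
    Set.Icc 2 c ⊆ derivedSet slopes := by
  have hIoc : Set.Ioc 2 c ⊆ derivedSet slopes := by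
    rintro r ⟨hr2, hrc⟩
    rw [mem_derivedSet, accPt_iff_nhds]
    intro U hU
    obtain ⟨ε, hε, hεU⟩ := Metric.mem_nhds_iff.mp hU
    set η := ε / 2 with hη
    have hηpos : 0 < η := by positivity
    set K := max 1 (20 / η) with hK
    obtain ⟨A, hA, hKc, hC, hs⟩ := h K
    have hK1 : 1 ≤ K := le_max_left _ _
    have hK2 : 20 / η ≤ K := le_max_right _ _
    have hKpos : 0 < K := by linarith
    have hcpos : (0 : ℝ) < A.card := by linarith
    have h1 : 10 / K ≤ η := by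
      rw [div_le_iff₀ hKpos]
      rw [div_le_iff₀ hηpos] at hK2
      linarith
    have h2 : 20 / (A.card : ℝ) ≤ η := by
      rw [div_le_iff₀ hcpos]
      rw [div_le_iff₀ hηpos] at hK2
      nlinarith
    obtain ⟨s, hs1, hs2, hs3⟩ := exists_slope_near A hA c K hK1 hC hs r hr2 hrc η hηpos h1 h2
    refine ⟨s, ⟨hεU ?_, hs1⟩, hs3.ne⟩
    rw [Metric.mem_ball, Real.dist_eq, abs_lt]
    constructor <;> linarith
  have hcl : IsClosed (derivedSet slopes) := isClosed_derivedSet slopes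
  have : Set.Icc 2 c = closure (Set.Ioc 2 c) := (closure_Ioc hc.ne).symm
  rw [this]
  exact closure_minimal hIoc hcl

end Pool.Agent.Work.MP_b25393_ag

end

section

set_option autoImplicit false

open scoped LinearAlgebra.Projectivization

namespace Pool.Agent.Work.MP_b25393_ag

open Projectivization Matrix

/-! ## combinatorial tables -/

/-- first coordinate of the normal direction of the family `F` -/
def fu : Fin 10 → ℤ := ![1,1,0,0,1,1,2,2,1,1]
/-- second coordinate of the normal direction -/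
def fv : Fin 10 → ℤ := ![0,0,1,1,1,-1,1,-1,2,-2]
/-- half-shift of the family -/
def fd : Fin 10 → ℤ := ![0,1,0,1,0,0,0,0,0,0]
/-- width of the family -/
def fw : Fin 10 → ℤ := ![5,2,5,2,5,5,3,3,3,3]
/-- fractional part (times 12) of the first coordinate of the point type -/
def kx : Fin 12 → ℤ := ![0,0,6,6,6,6,3,9,4,8,4,8]
/-- fractional part (times 12) of the second coordinate of the point type -/
def ky : Fin 12 → ℤ := ![0,6,0,6,3,9,6,6,4,8,8,4]

/-- families through a point of the given type -/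
def fam : Fin 12 → Finset (Fin 10) :=
  ![{0,2,4,5,6,7,8,9},{0,3,8,9},{1,2,6,7},{1,3,4,5},{1,8,9},{1,8,9},{3,6,7},{3,6,7},{5,6,8},
    {5,6,8},{4,7,9},{4,7,9}]

/-- number of the strip containing the cell `τ` moved by the symmetry `σ` -/
def fl : Fin 10 → Fin 8 → Fin 5 → ℤ := ![
  ![![0, 0, 0, 0, 0], ![0, 0, 0, 0, 0], ![0, 0, 0, 0, 0], ![0, 0, 0, 0, 0], ![0, 0, 0, 0, 0], ![0, 0, 0, 0, 0], ![0, 0, 0, 0, 0], ![0, 0, 0, 0, 0]],
  ![![0, 0, 0, 0, 0], ![0, 0, 0, 0, 0], ![0, 0, 0, 0, 0], ![0, 0, 0, 0, 0], ![0, 0, 0, 0, 0], ![0, 0, 0, 0, 0], ![0, 0, 0, 0, 0], ![0, 0, 0, 0, 0]],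
  ![![0, 0, 0, 0, 0], ![0, 0, 0, 0, 0], ![0, 0, 0, 0, 0], ![0, 0, 0, 0, 0], ![0, 0, 0, 0, 0], ![0, 0, 0, 0, 0], ![0, 0, 0, 0, 0], ![0, 0, 0, 0, 0]],
  ![![0, 0, 0, 0, 0], ![0, 0, 0, 0, 0], ![0, 0, 0, 0, 0], ![0, 0, 0, 0, 0], ![0, 0, 0, 0, 0], ![0, 0, 0, 0, 0], ![0, 0, 0, 0, 0], ![0, 0, 0, 0, 0]],
  ![![0, 0, 0, 0, 0], ![0, 0, 0, 0, 0], ![0, 0, 0, 0, 0], ![1, 1, 1, 1, 1], ![1, 1, 1, 1, 1], ![0, 0, 0, 0, 0], ![1, 1, 1, 1, 1], ![1, 1, 1, 1, 1]],
  ![![0, 0, 0, 0, 0], ![-1, -1, -1, -1, -1], ![0, 0, 0, 0, 0], ![0, 0, 0, 0, 0], ![-1, -1, -1, -1, -1], ![-1, -1, -1, -1, -1], ![-1, -1, -1, -1, -1], ![0, 0, 0, 0, 0]],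
  ![![0, 0, 1, 1, 1], ![0, 0, 0, 0, 1], ![1, 1, 1, 1, 1], ![2, 1, 2, 1, 1], ![1, 1, 1, 1, 1], ![0, 1, 0, 1, 1], ![2, 2, 1, 1, 1], ![2, 2, 2, 2, 1]],
  ![![0, 0, 0, 0, 0], ![-1, 0, -1, 0, 0], ![1, 1, 0, 0, 0], ![1, 1, 1, 1, 0], ![-1, -1, 0, 0, 0], ![-1, -1, -1, -1, 0], ![0, 0, 0, 0, 0], ![1, 0, 1, 0, 0]],
  ![![0, 0, 0, 0, 1], ![0, 0, 1, 1, 1], ![0, 1, 0, 1, 1], ![1, 1, 1, 1, 1], ![2, 1, 2, 1, 1], ![1, 1, 1, 1, 1], ![2, 2, 2, 2, 1], ![2, 2, 1, 1, 1]],
  ![![0, -1, 0, -1, -1], ![-1, -1, -1, -1, -1], ![0, 0, 0, 0, -1], ![0, 0, -1, -1, -1], ![-2, -2, -2, -2, -1], ![-2, -2, -1, -1, -1], ![-2, -1, -2, -1, -1], ![-1, -1, -1, -1, -1]]]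

/-- the strip of family `F` at the cell `(i,j,σ,τ)` lies within the width of the family -/
def act (F : Fin 10) (i j : ℤ) (σ : Fin 8) (τ : Fin 5) : Prop :=
  -fw F ≤ fu F * i + fv F * j + fl F σ τ ∧ fu F * i + fv F * j + fl F σ τ + 1 ≤ fw F

instance (F : Fin 10) (i j : ℤ) (σ : Fin 8) (τ : Fin 5) : Decidable (act F i j σ τ) := by
  unfold act; infer_instance

/-- number of lines through a point -/
def mm (κ : Fin 12) (i j : ℤ) (σ : Fin 8) (τ : Fin 5) : ℕ :=
  ((fam κ).filter (fun F => act F i j σ τ)).card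

/-- sum of a function of the multiplicities over all windows, for one symmetry -/
def KKs (G : ℕ → ℕ) (σ : Fin 8) (τ : Fin 5) : ℕ := ∑ i ∈ Finset.range 20,
  ∑ j ∈ Finset.range 20, ∑ κ : Fin 12, G (mm κ ((i:ℤ) - 10) ((j:ℤ) - 10) σ τ)

/-- sum of a function of the multiplicities over all windows -/
def KK (G : ℕ → ℕ) (τ : Fin 5) : ℕ := ∑ σ : Fin 8, KKs G σ τ

end Pool.Agent.Work.MP_b25393_ag

end

section

set_option autoImplicit false

namespace Pool.Agent.Work.MP_b25393_ag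

/-! ## counting lattice points by rows -/

lemma sum_lin (α β : ℤ) (p q : ℤ) (hpq : p ≤ q) :
    2 * ∑ r ∈ Finset.Ico p q, (α + β * r) = 2 * (q - p) * α + β * (q * (q - 1) - p * (p - 1)) := by
  induction q, hpq using Int.le_induction with
  | base => simp
  | succ q hq ih =>
    have h1 : Finset.Ico p (q + 1) = insert q (Finset.Ico p q) := by
      ext x
      simp only [Finset.mem_Ico, Finset.mem_insert]
      omega
    rw [h1, Finset.sum_insert (by simp), mul_add, ih]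
    ring

/-- Lower bound for the number of lattice points of a region given by rows. -/
lemma count_rows (T : Finset (ℤ × ℤ)) (p q α β : ℤ) (hpq : p ≤ q) (L H : ℤ → ℤ)
    (hLH : ∀ r, H r - L r = α + β * r) (f : ℤ → ℤ → ℤ × ℤ)
    (hf : ∀ r c r' c', f r c = f r' c' → r = r' ∧ c = c')
    (hT : ∀ r c, p ≤ r → r < q → L r ≤ 2 * c → 2 * c ≤ H r → f r c ∈ T) :
    2 * (q - p) * α + β * (q * (q - 1) - p * (p - 1)) ≤ 4 * (T.card : ℤ) := by
  classical
  rw [← sum_lin α β p q hpq]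
  set S : Finset (Σ _ : ℤ, ℤ) := (Finset.Ico p q).sigma
    (fun r => Finset.Icc ((L r + 1) / 2) (H r / 2)) with hS
  have h1 : S.card ≤ T.card := by
    apply Finset.card_le_card_of_injOn (fun s => f s.1 s.2)
    · rintro ⟨r, c⟩ hs
      rw [hS, Finset.mem_coe, Finset.mem_sigma, Finset.mem_Ico, Finset.mem_Icc] at hs
      obtain ⟨⟨h1, h2⟩, h3, h4⟩ := hs
      simp only at h1 h2 h3 h4
      apply hT r c h1 h2 <;> omega
    · rintro ⟨r, c⟩ _ ⟨r', c'⟩ _ h
      obtain ⟨h1, h2⟩ := hf r c r' c' h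
      subst h1 h2
      rfl
  have h2 : (S.card : ℤ) = ∑ r ∈ Finset.Ico p q,
      ((Finset.Icc ((L r + 1) / 2) (H r / 2)).card : ℤ) := by
    rw [hS, Finset.card_sigma]
    push_cast
    rfl
  have h3 : ∑ r ∈ Finset.Ico p q, (α + β * r) ≤
      2 * ∑ r ∈ Finset.Ico p q, ((Finset.Icc ((L r + 1) / 2) (H r / 2)).card : ℤ) := by
    rw [Finset.mul_sum]
    apply Finset.sum_le_sum
    intro r _
    rw [Int.card_Icc, ← hLH r]
    omega
  have h4 : (S.card : ℤ) ≤ T.card := by exact_mod_cast h1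
  linarith

end Pool.Agent.Work.MP_b25393_ag

end

section

set_option autoImplicit false
set_option linter.unusedSimpArgs false
set_option linter.unusedVariables false

namespace Pool.Agent.Work.MP_b25393_ag

/-! ## a form of the sums that the kernel evaluates quickly -/

/-- sum over a range, by plain recursion -/
noncomputable def lp (f : ℕ → ℕ) (n : ℕ) : ℕ := Nat.rec 0 (fun k s => Nat.add (f k) s) n

lemma lp_eq (f : ℕ → ℕ) (n : ℕ) : lp f n = ∑ i ∈ Finset.range n, f i := by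
  induction n with
  | zero => rfl
  | succ n ih =>
    rw [Finset.sum_range_succ, ← ih]
    exact Nat.add_comm (f n) (lp f n)

/-- pass a bit as a numeral -/
noncomputable def kb (t : Bool) (k : ℕ → ℕ) : ℕ := Bool.rec (k 0) (k 1) t

lemma kb_eq (t : Bool) (p : Prop) [Decidable p] (h : t = true ↔ p) (k : ℕ → ℕ) :
    kb t k = k (if p then 1 else 0) := by
  by_cases hp : p
  · rw [if_pos hp, h.mpr hp]
    rfl
  · rw [if_neg hp]
    have : t = false := by
      rw [← Bool.not_eq_true]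
      exact fun h' => hp (h.mp h')
    rw [this]
    rfl

/-- activity test of family 0 -/
def ts0 (c0 i j : ℕ) : Bool :=
  (and (Nat.ble 7 (Nat.add i c0)) (Nat.ble (Nat.add i c0) 16))

/-- activity test of family 1 -/
def ts1 (c1 i j : ℕ) : Bool :=
  (and (Nat.ble 10 (Nat.add i c1)) (Nat.ble (Nat.add i c1) 13))

/-- activity test of family 2 -/
def ts2 (c2 i j : ℕ) : Bool :=
  (and (Nat.ble 7 (Nat.add j c2)) (Nat.ble (Nat.add j c2) 16))

/-- activity test of family 3 -/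
def ts3 (c3 i j : ℕ) : Bool :=
  (and (Nat.ble 10 (Nat.add j c3)) (Nat.ble (Nat.add j c3) 13))

/-- activity test of family 4 -/
def ts4 (c4 i j : ℕ) : Bool :=
  (and (Nat.ble 17 (Nat.add (Nat.add i j) c4)) (Nat.ble (Nat.add (Nat.add i j) c4) 26))

/-- activity test of family 5 -/
def ts5 (c5 i j : ℕ) : Bool :=
  (and (Nat.ble j (Nat.add i (Nat.add c5 3))) (Nat.ble (Nat.add i (Nat.add c5 3)) (Nat.add j 9)))

/-- activity test of family 6 -/
def ts6 (c6 i j : ℕ) : Bool :=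
  (and (Nat.ble 29 (Nat.add (Nat.add (Nat.mul 2 i) j) c6)) (Nat.ble (Nat.add (Nat.add (Nat.mul 2 i) j) c6) 34))

/-- activity test of family 7 -/
def ts7 (c7 i j : ℕ) : Bool :=
  (and (Nat.ble (Nat.add j 9) (Nat.add (Nat.mul 2 i) c7)) (Nat.ble (Nat.add (Nat.mul 2 i) c7) (Nat.add j 14)))

/-- activity test of family 8 -/
def ts8 (c8 i j : ℕ) : Bool :=
  (and (Nat.ble 29 (Nat.add (Nat.add i (Nat.mul 2 j)) c8)) (Nat.ble (Nat.add (Nat.add i (Nat.mul 2 j)) c8) 34))

/-- activity test of family 9 -/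
def ts9 (c9 i j : ℕ) : Bool :=
  (and (Nat.ble (Nat.mul 2 j) (Nat.add i (Nat.add c9 11))) (Nat.ble (Nat.add i (Nat.add c9 11)) (Nat.add (Nat.mul 2 j) 5)))

/-- the sum over the twelve point types in one window -/
noncomputable def cell (g : ℕ → ℕ) (c0 c1 c2 c3 c4 c5 c6 c7 c8 c9 i j : ℕ) : ℕ :=
  kb (ts0 c0 i j) fun b0 =>
  kb (ts1 c1 i j) fun b1 =>
  kb (ts2 c2 i j) fun b2 =>
  kb (ts3 c3 i j) fun b3 =>
  kb (ts4 c4 i j) fun b4 =>
  kb (ts5 c5 i j) fun b5 =>
  kb (ts6 c6 i j) fun b6 =>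
  kb (ts7 c7 i j) fun b7 =>
  kb (ts8 c8 i j) fun b8 =>
  kb (ts9 c9 i j) fun b9 =>
  (Nat.add (g (Nat.add b0 (Nat.add b2 (Nat.add b4 (Nat.add b5 (Nat.add b6 (Nat.add b7 (Nat.add b8 b9)))))))) (Nat.add (g (Nat.add b0 (Nat.add b3 (Nat.add b8 b9)))) (Nat.add (g (Nat.add b1 (Nat.add b2 (Nat.add b6 b7)))) (Nat.add (g (Nat.add b1 (Nat.add b3 (Nat.add b4 b5)))) (Nat.add (g (Nat.add b1 (Nat.add b8 b9))) (Nat.add (g (Nat.add b1 (Nat.add b8 b9))) (Nat.add (g (Nat.add b3 (Nat.add b6 b7))) (Nat.add (g (Nat.add b3 (Nat.add b6 b7))) (Nat.add (g (Nat.add b5 (Nat.add b6 b8))) (Nat.add (g (Nat.add b5 (Nat.add b6 b8))) (Nat.add (g (Nat.add b4 (Nat.add b7 b9))) (g (Nat.add b4 (Nat.add b7 b9))))))))))))))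

lemma ts0_iff (i j c : ℕ) (σ : Fin 8) (τ : Fin 5) (hc : (c : ℤ) = fl 0 σ τ + 2) :
    ts0 c i j = true ↔ act 0 ((i : ℤ) - 10) ((j : ℤ) - 10) σ τ := by
  unfold ts0 act
  simp only [fu, fv, fw, Bool.and_eq_true, Nat.ble_eq, Nat.add_eq, Nat.mul_eq, Matrix.cons_val_zero, Matrix.cons_val_one, Matrix.cons_val]
  generalize fl 0 σ τ = f at hc
  omega

lemma ts1_iff (i j c : ℕ) (σ : Fin 8) (τ : Fin 5) (hc : (c : ℤ) = fl 1 σ τ + 2) :
    ts1 c i j = true ↔ act 1 ((i : ℤ) - 10) ((j : ℤ) - 10) σ τ := by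
  unfold ts1 act
  simp only [fu, fv, fw, Bool.and_eq_true, Nat.ble_eq, Nat.add_eq, Nat.mul_eq, Matrix.cons_val_zero, Matrix.cons_val_one, Matrix.cons_val]
  generalize fl 1 σ τ = f at hc
  omega

lemma ts2_iff (i j c : ℕ) (σ : Fin 8) (τ : Fin 5) (hc : (c : ℤ) = fl 2 σ τ + 2) :
    ts2 c i j = true ↔ act 2 ((i : ℤ) - 10) ((j : ℤ) - 10) σ τ := by
  unfold ts2 act
  simp only [fu, fv, fw, Bool.and_eq_true, Nat.ble_eq, Nat.add_eq, Nat.mul_eq, Matrix.cons_val_zero, Matrix.cons_val_one, Matrix.cons_val]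
  generalize fl 2 σ τ = f at hc
  omega

lemma ts3_iff (i j c : ℕ) (σ : Fin 8) (τ : Fin 5) (hc : (c : ℤ) = fl 3 σ τ + 2) :
    ts3 c i j = true ↔ act 3 ((i : ℤ) - 10) ((j : ℤ) - 10) σ τ := by
  unfold ts3 act
  simp only [fu, fv, fw, Bool.and_eq_true, Nat.ble_eq, Nat.add_eq, Nat.mul_eq, Matrix.cons_val_zero, Matrix.cons_val_one, Matrix.cons_val]
  generalize fl 3 σ τ = f at hc
  omega

lemma ts4_iff (i j c : ℕ) (σ : Fin 8) (τ : Fin 5) (hc : (c : ℤ) = fl 4 σ τ + 2) :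
    ts4 c i j = true ↔ act 4 ((i : ℤ) - 10) ((j : ℤ) - 10) σ τ := by
  unfold ts4 act
  simp only [fu, fv, fw, Bool.and_eq_true, Nat.ble_eq, Nat.add_eq, Nat.mul_eq, Matrix.cons_val_zero, Matrix.cons_val_one, Matrix.cons_val]
  generalize fl 4 σ τ = f at hc
  omega

lemma ts5_iff (i j c : ℕ) (σ : Fin 8) (τ : Fin 5) (hc : (c : ℤ) = fl 5 σ τ + 2) :
    ts5 c i j = true ↔ act 5 ((i : ℤ) - 10) ((j : ℤ) - 10) σ τ := by
  unfold ts5 act
  simp only [fu, fv, fw, Bool.and_eq_true, Nat.ble_eq, Nat.add_eq, Nat.mul_eq, Matrix.cons_val_zero, Matrix.cons_val_one, Matrix.cons_val]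
  generalize fl 5 σ τ = f at hc
  omega

lemma ts6_iff (i j c : ℕ) (σ : Fin 8) (τ : Fin 5) (hc : (c : ℤ) = fl 6 σ τ + 2) :
    ts6 c i j = true ↔ act 6 ((i : ℤ) - 10) ((j : ℤ) - 10) σ τ := by
  unfold ts6 act
  simp only [fu, fv, fw, Bool.and_eq_true, Nat.ble_eq, Nat.add_eq, Nat.mul_eq, Matrix.cons_val_zero, Matrix.cons_val_one, Matrix.cons_val]
  generalize fl 6 σ τ = f at hc
  omega

lemma ts7_iff (i j c : ℕ) (σ : Fin 8) (τ : Fin 5) (hc : (c : ℤ) = fl 7 σ τ + 2) :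
    ts7 c i j = true ↔ act 7 ((i : ℤ) - 10) ((j : ℤ) - 10) σ τ := by
  unfold ts7 act
  simp only [fu, fv, fw, Bool.and_eq_true, Nat.ble_eq, Nat.add_eq, Nat.mul_eq, Matrix.cons_val_zero, Matrix.cons_val_one, Matrix.cons_val]
  generalize fl 7 σ τ = f at hc
  omega

lemma ts8_iff (i j c : ℕ) (σ : Fin 8) (τ : Fin 5) (hc : (c : ℤ) = fl 8 σ τ + 2) :
    ts8 c i j = true ↔ act 8 ((i : ℤ) - 10) ((j : ℤ) - 10) σ τ := by
  unfold ts8 act
  simp only [fu, fv, fw, Bool.and_eq_true, Nat.ble_eq, Nat.add_eq, Nat.mul_eq, Matrix.cons_val_zero, Matrix.cons_val_one, Matrix.cons_val]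
  generalize fl 8 σ τ = f at hc
  omega

lemma ts9_iff (i j c : ℕ) (σ : Fin 8) (τ : Fin 5) (hc : (c : ℤ) = fl 9 σ τ + 2) :
    ts9 c i j = true ↔ act 9 ((i : ℤ) - 10) ((j : ℤ) - 10) σ τ := by
  unfold ts9 act
  simp only [fu, fv, fw, Bool.and_eq_true, Nat.ble_eq, Nat.add_eq, Nat.mul_eq, Matrix.cons_val_zero, Matrix.cons_val_one, Matrix.cons_val]
  generalize fl 9 σ τ = f at hc
  omega

lemma cell_eq (G : ℕ → ℕ) (i j : ℕ) (σ : Fin 8) (τ : Fin 5) (c0 c1 c2 c3 c4 c5 c6 c7 c8 c9 : ℕ)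
    (h0 : (c0 : ℤ) = fl 0 σ τ + 2)
    (h1 : (c1 : ℤ) = fl 1 σ τ + 2)
    (h2 : (c2 : ℤ) = fl 2 σ τ + 2)
    (h3 : (c3 : ℤ) = fl 3 σ τ + 2)
    (h4 : (c4 : ℤ) = fl 4 σ τ + 2)
    (h5 : (c5 : ℤ) = fl 5 σ τ + 2)
    (h6 : (c6 : ℤ) = fl 6 σ τ + 2)
    (h7 : (c7 : ℤ) = fl 7 σ τ + 2)
    (h8 : (c8 : ℤ) = fl 8 σ τ + 2)
    (h9 : (c9 : ℤ) = fl 9 σ τ + 2)
    : cell G c0 c1 c2 c3 c4 c5 c6 c7 c8 c9 i j = ∑ κ : Fin 12, G (mm κ ((i:ℤ) - 10) ((j:ℤ) - 10) σ τ) := by
  unfold cell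
  rw [kb_eq _ _ (ts0_iff i j c0 σ τ h0)]
  rw [kb_eq _ _ (ts1_iff i j c1 σ τ h1)]
  rw [kb_eq _ _ (ts2_iff i j c2 σ τ h2)]
  rw [kb_eq _ _ (ts3_iff i j c3 σ τ h3)]
  rw [kb_eq _ _ (ts4_iff i j c4 σ τ h4)]
  rw [kb_eq _ _ (ts5_iff i j c5 σ τ h5)]
  rw [kb_eq _ _ (ts6_iff i j c6 σ τ h6)]
  rw [kb_eq _ _ (ts7_iff i j c7 σ τ h7)]
  rw [kb_eq _ _ (ts8_iff i j c8 σ τ h8)]
  rw [kb_eq _ _ (ts9_iff i j c9 σ τ h9)]
  simp only [mm, Finset.card_filter]
  rw [Fin.sum_univ_succ]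
  simp only [Fin.sum_univ_succ, Fin.sum_univ_zero, fam, Nat.add_eq, Matrix.cons_val_zero,
    Matrix.cons_val_succ]
  repeat rw [Finset.sum_insert (by decide)]
  simp only [Finset.sum_singleton, add_zero]

lemma KKs_eq (G : ℕ → ℕ) (σ : Fin 8) (τ : Fin 5) (c0 c1 c2 c3 c4 c5 c6 c7 c8 c9 : ℕ)
    (h : (c0 : ℤ) = fl 0 σ τ + 2 ∧ (c1 : ℤ) = fl 1 σ τ + 2 ∧ (c2 : ℤ) = fl 2 σ τ + 2 ∧ (c3 : ℤ) = fl 3 σ τ + 2 ∧ (c4 : ℤ) = fl 4 σ τ + 2 ∧ (c5 : ℤ) = fl 5 σ τ + 2 ∧ (c6 : ℤ) = fl 6 σ τ + 2 ∧ (c7 : ℤ) = fl 7 σ τ + 2 ∧ (c8 : ℤ) = fl 8 σ τ + 2 ∧ (c9 : ℤ) = fl 9 σ τ + 2)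
    : KKs G σ τ = lp (fun i => lp (fun j => cell G c0 c1 c2 c3 c4 c5 c6 c7 c8 c9 i j) 20) 20 := by
  obtain ⟨h0, h1, h2, h3, h4, h5, h6, h7, h8, h9⟩ := h
  rw [lp_eq]
  unfold KKs
  refine Finset.sum_congr rfl fun i _ => ?_
  rw [lp_eq]
  refine Finset.sum_congr rfl fun j _ => ?_
  rw [cell_eq G i j σ τ c0 c1 c2 c3 c4 c5 c6 c7 c8 c9 h0 h1 h2 h3 h4 h5 h6 h7 h8 h9]

lemma sum8 (G : ℕ → ℕ) (τ : Fin 5) {a : ℕ} (h0 : KKs G 0 τ = a) (h1 : KKs G 1 τ = a)
    (h2 : KKs G 2 τ = a) (h3 : KKs G 3 τ = a) (h4 : KKs G 4 τ = a) (h5 : KKs G 5 τ = a)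
    (h6 : KKs G 6 τ = a) (h7 : KKs G 7 τ = a) {b : ℕ} (hb : b = 8 * a) : KK G τ = b := by
  unfold KK
  rw [Fin.sum_univ_eight, h0, h1, h2, h3, h4, h5, h6, h7, hb]
  omega

end Pool.Agent.Work.MP_b25393_ag

end

section

set_option autoImplicit false

open scoped LinearAlgebra.Projectivization

namespace Pool.Agent.Work.MP_b25393_ag

open Projectivization Matrix

/-! ## the lines -/

lemma dir_eq (F F' : Fin 10) (h : fu F * fv F' = fv F * fu F') : fu F = fu F' ∧ fv F = fv F' := by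
  revert F F'; decide

lemma fam_eq (F F' : Fin 10) (h1 : fu F = fu F') (h2 : fv F = fv F') (h3 : fd F = fd F') :
    F = F' := by
  revert F F'; decide

lemma dir_ne (F : Fin 10) : fu F ≠ 0 ∨ fv F ≠ 0 := by
  revert F; decide

lemma fd_cases (F : Fin 10) : fd F = 0 ∨ fd F = 1 := by
  revert F; decide

/-- coordinates of the `j`-th line of the family `F` -/
def lv (F : Fin 10) (j : ℤ) : Fin 3 → ℚ := ![2 * fu F, 2 * fv F, -(2 * j + fd F)]

lemma lv_ne (F : Fin 10) (j : ℤ) : lv F j ≠ 0 := by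
  intro h
  have h0 := congrFun h 0
  have h1 := congrFun h 1
  simp [lv] at h0 h1
  rcases dir_ne F with h | h
  · exact h h0
  · exact h h1

/-- the `j`-th line of the family `F` -/
noncomputable def ln (F : Fin 10) (j : ℤ) : PP := mk ℚ (lv F j) (lv_ne F j)

lemma ln_inj {F F' : Fin 10} {j j' : ℤ} (h : ln F j = ln F' j') : F = F' ∧ j = j' := by
  have hc := cross_eq_zero_of_eq _ _ h
  rw [cross_apply] at hc
  have h0 := congrFun hc 0
  have h1 := congrFun hc 1
  have h2 := congrFun hc 2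
  simp only [lv, Matrix.cons_val_zero, Matrix.cons_val_one, Matrix.cons_val, Pi.zero_apply]
    at h0 h1 h2
  have e2 : fu F * fv F' = fv F * fu F' := by
    have : (fu F : ℚ) * fv F' = fv F * fu F' := by linarith
    exact_mod_cast this
  obtain ⟨hu, hv⟩ := dir_eq F F' e2
  have e0 : fv F * (2 * j + fd F) = fv F * (2 * j' + fd F') := by
    have : (fv F : ℚ) * (2 * j + fd F) = fv F * (2 * j' + fd F') := by
      rw [← hv] at h0
      linarith
    exact_mod_cast this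
  have e1 : fu F * (2 * j + fd F) = fu F * (2 * j' + fd F') := by
    have : (fu F : ℚ) * (2 * j + fd F) = fu F * (2 * j' + fd F') := by
      rw [← hu] at h1
      linarith
    exact_mod_cast this
  have e3 : 2 * j + fd F = 2 * j' + fd F' := by
    rcases dir_ne F with h | h
    · exact mul_left_cancel₀ h e1
    · exact mul_left_cancel₀ h e0
  have e4 : fd F = fd F' := by
    rcases fd_cases F with h | h <;> rcases fd_cases F' with h' | h' <;> omega
  exact ⟨fam_eq F F' hu hv e4, by omega⟩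

/-- indices of the lines -/
noncomputable def LI (N : ℤ) : Finset (Σ _ : Fin 10, ℤ) :=
  Finset.univ.sigma (fun F => Finset.Ico (-(fw F) * N) (fw F * N + 1 - fd F))

lemma mem_LI {N : ℤ} {q : Σ _ : Fin 10, ℤ} :
    q ∈ LI N ↔ -(fw q.1) * N ≤ q.2 ∧ q.2 + fd q.1 ≤ fw q.1 * N := by
  unfold LI
  rw [Finset.mem_sigma, Finset.mem_Ico]
  simp only [Finset.mem_univ, true_and]
  constructor <;> rintro ⟨h1, h2⟩ <;> exact ⟨h1, by omega⟩

/-- the arrangement -/
noncomputable def AN (N : ℤ) : Finset PP := by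
  classical
  exact (LI N).image (fun q => ln q.1 q.2)

lemma ln_injective : Function.Injective (fun q : (Σ _ : Fin 10, ℤ) => ln q.1 q.2) := by
  rintro ⟨F, j⟩ ⟨F', j'⟩ h
  obtain ⟨rfl, rfl⟩ := ln_inj h
  rfl

lemma card_AN (N : ℤ) (hN : 1 ≤ N) : ((AN N).card : ℤ) = 72 * N + 8 := by
  classical
  unfold AN
  rw [Finset.card_image_of_injective _ ln_injective]
  unfold LI
  rw [Finset.card_sigma]
  simp only [Int.card_Ico]
  simp [Fin.sum_univ_succ, fw, fd]
  omega

lemma mem_AN {N : ℤ} {F : Fin 10} {j : ℤ} (h : (⟨F, j⟩ : Σ _ : Fin 10, ℤ) ∈ LI N) :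
    ln F j ∈ AN N := by
  classical
  unfold AN
  exact Finset.mem_image_of_mem (fun q : (Σ _ : Fin 10, ℤ) => ln q.1 q.2) h

lemma le_mult_AN {N : ℤ} {p : PP} (S : Finset (Σ _ : Fin 10, ℤ))
    (hS : ∀ q ∈ S, q ∈ LI N ∧ inc p (ln q.1 q.2)) : S.card ≤ mult (AN N) p := by
  classical
  unfold mult
  rw [← Finset.card_image_of_injective S ln_injective]
  apply Finset.card_le_card
  intro L hL
  obtain ⟨q, hq, rfl⟩ := Finset.mem_image.mp hL
  exact Finset.mem_filter.mpr ⟨mem_AN (hS q hq).1, (hS q hq).2⟩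

/-! ## nondegeneracy -/

lemma inc_ln (p : PP) (F : Fin 10) (j : ℤ) :
    inc p (ln F j) ↔ p.rep 0 * (2 * fu F) + p.rep 1 * (2 * fv F) - p.rep 2 * (2 * j + fd F) = 0 := by
  conv_lhs => rw [← p.mk_rep]
  unfold ln
  rw [inc_mk_mk p.rep_nonzero (lv_ne F j)]
  rw [Fin.sum_univ_three]
  simp only [lv, Matrix.cons_val_zero, Matrix.cons_val_one, Matrix.cons_val]
  constructor <;> intro h <;> linarith

lemma nondeg_AN (N : ℤ) (hN : 1 ≤ N) : nondeg (AN N) := by
  classical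
  have hcard := card_AN N hN
  refine ⟨by omega, fun p => ?_⟩
  have hx0 : ln 0 0 ∈ AN N := mem_AN (mem_LI.mpr (by simp [fw, fd]; omega))
  have hx1 : ln 0 1 ∈ AN N := mem_AN (mem_LI.mpr (by simp [fw, fd]; omega))
  have hy0 : ln 2 0 ∈ AN N := mem_AN (mem_LI.mpr (by simp [fw, fd]; omega))
  have hy1 : ln 2 1 ∈ AN N := mem_AN (mem_LI.mpr (by simp [fw, fd]; omega))
  have ix0 := inc_ln p 0 0
  have ix1 := inc_ln p 0 1
  have iy0 := inc_ln p 2 0
  have iy1 := inc_ln p 2 1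
  simp [fu, fv, fd] at ix0 ix1 iy0 iy1
  have hne := p.rep_nonzero
  have key : ∀ L M : PP, L ∈ AN N → M ∈ AN N → L ≠ M → ¬ inc p L → ¬ inc p M →
      mult (AN N) p + 2 ≤ (AN N).card := by
    intro L M hL hM hLM hpL hpM
    unfold mult
    have h1 : ({L, M} : Finset PP) ⊆ (AN N).filter (fun K => ¬ inc p K) := by
      intro K hK
      rw [Finset.mem_insert, Finset.mem_singleton] at hK
      rcases hK with rfl | rfl
      · exact Finset.mem_filter.mpr ⟨hL, hpL⟩
      · exact Finset.mem_filter.mpr ⟨hM, hpM⟩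
    have h2 := Finset.card_le_card h1
    rw [Finset.card_pair hLM] at h2
    have h3 := Finset.card_filter_add_card_filter_not (s := AN N) (fun K => inc p K)
    omega
  have n1 : ln 0 0 ≠ ln 0 1 := fun h => by simpa using (ln_inj h).2
  have n2 : ln 2 0 ≠ ln 2 1 := fun h => by simpa using (ln_inj h).2
  have n3 : ∀ i j, ln 0 i ≠ ln 2 j := fun i j h => by simpa using (ln_inj h).1
  by_cases a : inc p (ln 0 0)
  · by_cases b : inc p (ln 0 1)
    · -- p is the point at infinity of the direction x = const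
      have ha := ix0.mp a
      have hb := ix1.mp b
      rw [ha] at hb
      have h2 : p.rep 2 = 0 := by linarith
      apply key (ln 2 0) (ln 2 1) hy0 hy1 n2
      · intro hc
        apply hne
        have hc' := iy0.mp hc
        ext i
        fin_cases i
        · exact ha
        · exact hc'
        · exact h2
      · intro hc
        apply hne
        have hc' := iy1.mp hc
        rw [h2] at hc'
        ext i
        fin_cases i
        · exact ha
        · show p.rep 1 = 0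
          linarith
        · exact h2
    · by_cases c : inc p (ln 2 0)
      · by_cases d : inc p (ln 2 1)
        · exfalso
          have hc := iy0.mp c
          have hd := iy1.mp d
          have ha := ix0.mp a
          rw [hc] at hd
          have h2 : p.rep 2 = 0 := by linarith
          apply hne
          ext i
          fin_cases i
          · exact ha
          · exact hc
          · exact h2
        · exact key _ _ hx1 hy1 (n3 _ _) b d
      · exact key _ _ hx1 hy0 (n3 _ _) b c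
  · by_cases b : inc p (ln 2 0)
    · by_cases c : inc p (ln 2 1)
      · have hb := iy0.mp b
        have hc := iy1.mp c
        rw [hb] at hc
        have h2 : p.rep 2 = 0 := by linarith
        apply key (ln 0 0) (ln 0 1) hx0 hx1 n1 a
        intro hd
        have hd' := ix1.mp hd
        rw [h2] at hd'
        apply a
        rw [ix0]
        linarith
      · exact key _ _ hx0 hy1 (n3 _ _) a c
    · exact key _ _ hx0 hy0 (n3 _ _) a b

/-! ## the points -/

/-- the affine point `(X/12, Y/12)` -/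
def pv (X Y : ℤ) : Fin 3 → ℚ := ![X, Y, 12]

lemma pv_ne (X Y : ℤ) : pv X Y ≠ 0 := by
  intro h
  have h0 := congrFun h 2
  simp [pv] at h0

/-- the affine point `(X/12, Y/12)` -/
noncomputable def pt (X Y : ℤ) : PP := mk ℚ (pv X Y) (pv_ne X Y)

lemma pt_inj {X Y X' Y' : ℤ} (h : pt X Y = pt X' Y') : X = X' ∧ Y = Y' := by
  have hc := cross_eq_zero_of_eq _ _ h
  rw [cross_apply] at hc
  have h0 := congrFun hc 0
  have h1 := congrFun hc 1
  simp only [pv, Matrix.cons_val_zero, Matrix.cons_val_one, Matrix.cons_val, Pi.zero_apply]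
    at h0 h1
  constructor
  · have : (X : ℚ) = X' := by linarith
    exact_mod_cast this
  · have : (Y : ℚ) = Y' := by linarith
    exact_mod_cast this

lemma inc_pt_ln {X Y : ℤ} {F : Fin 10} {j : ℤ} (h : fu F * X + fv F * Y = 6 * (2 * j + fd F)) :
    inc (pt X Y) (ln F j) := by
  unfold pt ln
  rw [inc_mk_mk (pv_ne X Y) (lv_ne F j), Fin.sum_univ_three]
  simp only [lv, pv, Matrix.cons_val_zero, Matrix.cons_val_one, Matrix.cons_val]
  have : (fu F : ℚ) * X + fv F * Y = 6 * (2 * j + fd F) := by exact_mod_cast h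
  linarith

/-- points at infinity -/
def iv (F : Fin 10) : Fin 3 → ℚ := ![fv F, -fu F, 0]

lemma iv_ne (F : Fin 10) : iv F ≠ 0 := by
  intro h
  have h0 := congrFun h 0
  have h1 := congrFun h 1
  simp [iv] at h0 h1
  rcases dir_ne F with h | h
  · exact h h1
  · exact h h0

/-- points at infinity -/
noncomputable def ip (F : Fin 10) : PP := mk ℚ (iv F) (iv_ne F)

lemma ip_inj {F F' : Fin 10} (h : ip F = ip F') : fu F = fu F' ∧ fv F = fv F' := by
  have hc := cross_eq_zero_of_eq _ _ h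
  rw [cross_apply] at hc
  have h2 := congrFun hc 2
  simp only [iv, Matrix.cons_val_zero, Matrix.cons_val_one, Matrix.cons_val, Pi.zero_apply] at h2
  apply dir_eq
  have : (fu F : ℚ) * fv F' = fv F * fu F' := by linarith
  exact_mod_cast this

lemma ip_ne_pt (F : Fin 10) (X Y : ℤ) : ip F ≠ pt X Y := by
  intro h
  have hc := cross_eq_zero_of_eq _ _ h
  rw [cross_apply] at hc
  have h0 := congrFun hc 0
  have h1 := congrFun hc 1
  simp [pv, iv] at h0 h1
  rcases dir_ne F with h | h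
  · exact h h0
  · exact h h1

lemma inc_ip_ln {F F' : Fin 10} {j : ℤ} (h1 : fu F' = fu F) (h2 : fv F' = fv F) :
    inc (ip F) (ln F' j) := by
  unfold ip ln
  rw [inc_mk_mk (iv_ne F) (lv_ne F' j), Fin.sum_univ_three]
  simp only [lv, iv, Matrix.cons_val_zero, Matrix.cons_val_one, Matrix.cons_val]
  rw [h1, h2]
  ring

end Pool.Agent.Work.MP_b25393_ag

end

section

set_option autoImplicit false

open scoped LinearAlgebra.Projectivization

namespace Pool.Agent.Work.MP_b25393_ag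

open Projectivization Matrix

/-! ## cells of the unit square -/

/-- first coordinate of the image of `(a,b)` under the `σ`-th symmetry of the square of side `N` -/
def sa (σ : Fin 8) (N a b : ℤ) : ℤ := (![a, b, N - a, N - b, a, b, N - a, N - b] : Fin 8 → ℤ) σ
/-- second coordinate -/
def sb (σ : Fin 8) (N a b : ℤ) : ℤ := (![b, a, b, a, N - b, N - a, N - b, N - a] : Fin 8 → ℤ) σ

/-- the open cells, with a margin -/
def base (τ : Fin 5) (N a b : ℤ) : Prop :=
  3 ≤ b ∧ b + 3 ≤ a ∧ 2 * a + 3 ≤ N ∧ (![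
    2 * b + 3 ≤ a ∧ 2 * a + b + 3 ≤ N ∧ a + 2 * b + 3 ≤ N,
    a + 3 ≤ 2 * b ∧ 2 * a + b + 3 ≤ N ∧ a + 2 * b + 3 ≤ N,
    2 * b + 3 ≤ a ∧ N + 3 ≤ 2 * a + b ∧ a + 2 * b + 3 ≤ N,
    a + 3 ≤ 2 * b ∧ N + 3 ≤ 2 * a + b ∧ a + 2 * b + 3 ≤ N,
    a + 3 ≤ 2 * b ∧ N + 3 ≤ 2 * a + b ∧ N + 3 ≤ a + 2 * b] : Fin 5 → Prop) τ

lemma base_bounds {τ : Fin 5} {N a b : ℤ} (h : base τ N a b) (σ : Fin 8) :
    1 ≤ sa σ N a b ∧ sa σ N a b + 1 ≤ N ∧ 1 ≤ sb σ N a b ∧ sb σ N a b + 1 ≤ N := by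
  obtain ⟨h1, h2, h3, -⟩ := h
  fin_cases σ <;> simp [sa, sb] <;> omega

lemma fl_spec {τ : Fin 5} {N a b : ℤ} (h : base τ N a b) (σ : Fin 8) (F : Fin 10) :
    fl F σ τ * N + 3 ≤ fu F * sa σ N a b + fv F * sb σ N a b ∧
      fu F * sa σ N a b + fv F * sb σ N a b + 3 ≤ (fl F σ τ + 1) * N := by
  obtain ⟨h1, h2, h3, h4⟩ := h
  fin_cases τ <;> simp at h4 <;> fin_cases σ <;> fin_cases F <;>
    simp [sa, sb, fl, fu, fv] <;> omega

end Pool.Agent.Work.MP_b25393_ag

end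

section

set_option autoImplicit false

namespace Pool.Agent.Work.MP_b25393_ag

theorem KK_0_0 : KKs (fun m => m - 2) 0 0 = 586 ∧
    KKs (fun m => (m - 1) * (m - 2)) 0 0 = 1856 := by
  have h := fun G => KKs_eq G 0 0 2 2 2 2 2 2 2 2 2 2 (by decide)
  rw [h, h]
  decide +kernel

theorem KK_0_1 : KKs (fun m => m - 2) 1 0 = 586 ∧
    KKs (fun m => (m - 1) * (m - 2)) 1 0 = 1856 := by
  have h := fun G => KKs_eq G 1 0 2 2 2 2 2 1 2 1 2 1 (by decide)
  rw [h, h]
  decide +kernel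

theorem KK_0_2 : KKs (fun m => m - 2) 2 0 = 586 ∧
    KKs (fun m => (m - 1) * (m - 2)) 2 0 = 1856 := by
  have h := fun G => KKs_eq G 2 0 2 2 2 2 2 2 3 3 2 2 (by decide)
  rw [h, h]
  decide +kernel

theorem KK_0_3 : KKs (fun m => m - 2) 3 0 = 586 ∧
    KKs (fun m => (m - 1) * (m - 2)) 3 0 = 1856 := by
  have h := fun G => KKs_eq G 3 0 2 2 2 2 3 2 4 3 3 2 (by decide)
  rw [h, h]
  decide +kernel

theorem KK_0_4 : KKs (fun m => m - 2) 4 0 = 586 ∧
    KKs (fun m => (m - 1) * (m - 2)) 4 0 = 1856 := by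
  have h := fun G => KKs_eq G 4 0 2 2 2 2 3 1 3 1 4 0 (by decide)
  rw [h, h]
  decide +kernel

theorem KK_0_5 : KKs (fun m => m - 2) 5 0 = 586 ∧
    KKs (fun m => (m - 1) * (m - 2)) 5 0 = 1856 := by
  have h := fun G => KKs_eq G 5 0 2 2 2 2 2 1 2 1 3 0 (by decide)
  rw [h, h]
  decide +kernel

theorem KK_0_6 : KKs (fun m => m - 2) 6 0 = 586 ∧
    KKs (fun m => (m - 1) * (m - 2)) 6 0 = 1856 := by
  have h := fun G => KKs_eq G 6 0 2 2 2 2 3 1 4 2 4 0 (by decide)
  rw [h, h]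
  decide +kernel

theorem KK_0_7 : KKs (fun m => m - 2) 7 0 = 586 ∧
    KKs (fun m => (m - 1) * (m - 2)) 7 0 = 1856 := by
  have h := fun G => KKs_eq G 7 0 2 2 2 2 3 2 4 3 4 1 (by decide)
  rw [h, h]
  decide +kernel

theorem KK_0 : KK (fun m => m - 2) 0 = 4688 ∧
    KK (fun m => (m - 1) * (m - 2)) 0 = 14848 :=
  ⟨sum8 _ _ KK_0_0.1 KK_0_1.1 KK_0_2.1 KK_0_3.1 KK_0_4.1 KK_0_5.1 KK_0_6.1
      KK_0_7.1 (by norm_num),
    sum8 _ _ KK_0_0.2 KK_0_1.2 KK_0_2.2 KK_0_3.2 KK_0_4.2 KK_0_5.2 KK_0_6.2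
      KK_0_7.2 (by norm_num)⟩

end Pool.Agent.Work.MP_b25393_ag

end

section

set_option autoImplicit false

namespace Pool.Agent.Work.MP_b25393_ag

theorem KK_1_0 : KKs (fun m => m - 2) 0 1 = 584 ∧
    KKs (fun m => (m - 1) * (m - 2)) 0 1 = 1848 := by
  have h := fun G => KKs_eq G 0 1 2 2 2 2 2 2 2 2 2 1 (by decide)
  rw [h, h]
  decide +kernel

theorem KK_1_1 : KKs (fun m => m - 2) 1 1 = 584 ∧
    KKs (fun m => (m - 1) * (m - 2)) 1 1 = 1848 := by
  have h := fun G => KKs_eq G 1 1 2 2 2 2 2 1 2 2 2 1 (by decide)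
  rw [h, h]
  decide +kernel

theorem KK_1_2 : KKs (fun m => m - 2) 2 1 = 584 ∧
    KKs (fun m => (m - 1) * (m - 2)) 2 1 = 1848 := by
  have h := fun G => KKs_eq G 2 1 2 2 2 2 2 2 3 3 3 2 (by decide)
  rw [h, h]
  decide +kernel

theorem KK_1_3 : KKs (fun m => m - 2) 3 1 = 584 ∧
    KKs (fun m => (m - 1) * (m - 2)) 3 1 = 1848 := by
  have h := fun G => KKs_eq G 3 1 2 2 2 2 3 2 3 3 3 2 (by decide)
  rw [h, h]
  decide +kernel

theorem KK_1_4 : KKs (fun m => m - 2) 4 1 = 584 ∧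
    KKs (fun m => (m - 1) * (m - 2)) 4 1 = 1848 := by
  have h := fun G => KKs_eq G 4 1 2 2 2 2 3 1 3 1 3 0 (by decide)
  rw [h, h]
  decide +kernel

theorem KK_1_5 : KKs (fun m => m - 2) 5 1 = 584 ∧
    KKs (fun m => (m - 1) * (m - 2)) 5 1 = 1848 := by
  have h := fun G => KKs_eq G 5 1 2 2 2 2 2 1 3 1 3 0 (by decide)
  rw [h, h]
  decide +kernel

theorem KK_1_6 : KKs (fun m => m - 2) 6 1 = 584 ∧
    KKs (fun m => (m - 1) * (m - 2)) 6 1 = 1848 := by
  have h := fun G => KKs_eq G 6 1 2 2 2 2 3 1 4 2 4 1 (by decide)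
  rw [h, h]
  decide +kernel

theorem KK_1_7 : KKs (fun m => m - 2) 7 1 = 584 ∧
    KKs (fun m => (m - 1) * (m - 2)) 7 1 = 1848 := by
  have h := fun G => KKs_eq G 7 1 2 2 2 2 3 2 4 2 4 1 (by decide)
  rw [h, h]
  decide +kernel

theorem KK_1 : KK (fun m => m - 2) 1 = 4672 ∧
    KK (fun m => (m - 1) * (m - 2)) 1 = 14784 :=
  ⟨sum8 _ _ KK_1_0.1 KK_1_1.1 KK_1_2.1 KK_1_3.1 KK_1_4.1 KK_1_5.1 KK_1_6.1
      KK_1_7.1 (by norm_num),
    sum8 _ _ KK_1_0.2 KK_1_1.2 KK_1_2.2 KK_1_3.2 KK_1_4.2 KK_1_5.2 KK_1_6.2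
      KK_1_7.2 (by norm_num)⟩

end Pool.Agent.Work.MP_b25393_ag

end

section

set_option autoImplicit false

namespace Pool.Agent.Work.MP_b25393_ag

theorem KK_2_0 : KKs (fun m => m - 2) 0 2 = 586 ∧
    KKs (fun m => (m - 1) * (m - 2)) 0 2 = 1852 := by
  have h := fun G => KKs_eq G 0 2 2 2 2 2 2 2 3 2 2 2 (by decide)
  rw [h, h]
  decide +kernel

theorem KK_2_1 : KKs (fun m => m - 2) 1 2 = 586 ∧
    KKs (fun m => (m - 1) * (m - 2)) 1 2 = 1852 := by
  have h := fun G => KKs_eq G 1 2 2 2 2 2 2 1 2 1 3 1 (by decide)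
  rw [h, h]
  decide +kernel

theorem KK_2_2 : KKs (fun m => m - 2) 2 2 = 586 ∧
    KKs (fun m => (m - 1) * (m - 2)) 2 2 = 1852 := by
  have h := fun G => KKs_eq G 2 2 2 2 2 2 2 2 3 2 2 2 (by decide)
  rw [h, h]
  decide +kernel

theorem KK_2_3 : KKs (fun m => m - 2) 3 2 = 586 ∧
    KKs (fun m => (m - 1) * (m - 2)) 3 2 = 1852 := by
  have h := fun G => KKs_eq G 3 2 2 2 2 2 3 2 4 3 3 1 (by decide)
  rw [h, h]
  decide +kernel

theorem KK_2_4 : KKs (fun m => m - 2) 4 2 = 586 ∧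
    KKs (fun m => (m - 1) * (m - 2)) 4 2 = 1852 := by
  have h := fun G => KKs_eq G 4 2 2 2 2 2 3 1 3 2 4 0 (by decide)
  rw [h, h]
  decide +kernel

theorem KK_2_5 : KKs (fun m => m - 2) 5 2 = 586 ∧
    KKs (fun m => (m - 1) * (m - 2)) 5 2 = 1852 := by
  have h := fun G => KKs_eq G 5 2 2 2 2 2 2 1 2 1 3 1 (by decide)
  rw [h, h]
  decide +kernel

theorem KK_2_6 : KKs (fun m => m - 2) 6 2 = 586 ∧
    KKs (fun m => (m - 1) * (m - 2)) 6 2 = 1852 := by
  have h := fun G => KKs_eq G 6 2 2 2 2 2 3 1 3 2 4 0 (by decide)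
  rw [h, h]
  decide +kernel

theorem KK_2_7 : KKs (fun m => m - 2) 7 2 = 586 ∧
    KKs (fun m => (m - 1) * (m - 2)) 7 2 = 1852 := by
  have h := fun G => KKs_eq G 7 2 2 2 2 2 3 2 4 3 3 1 (by decide)
  rw [h, h]
  decide +kernel

theorem KK_2 : KK (fun m => m - 2) 2 = 4688 ∧
    KK (fun m => (m - 1) * (m - 2)) 2 = 14816 :=
  ⟨sum8 _ _ KK_2_0.1 KK_2_1.1 KK_2_2.1 KK_2_3.1 KK_2_4.1 KK_2_5.1 KK_2_6.1
      KK_2_7.1 (by norm_num),
    sum8 _ _ KK_2_0.2 KK_2_1.2 KK_2_2.2 KK_2_3.2 KK_2_4.2 KK_2_5.2 KK_2_6.2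
      KK_2_7.2 (by norm_num)⟩

end Pool.Agent.Work.MP_b25393_ag

end

section

set_option autoImplicit false

namespace Pool.Agent.Work.MP_b25393_ag

theorem KK_3_0 : KKs (fun m => m - 2) 0 3 = 584 ∧
    KKs (fun m => (m - 1) * (m - 2)) 0 3 = 1846 := by
  have h := fun G => KKs_eq G 0 3 2 2 2 2 2 2 3 2 2 1 (by decide)
  rw [h, h]
  decide +kernel

theorem KK_3_1 : KKs (fun m => m - 2) 1 3 = 584 ∧
    KKs (fun m => (m - 1) * (m - 2)) 1 3 = 1846 := by
  have h := fun G => KKs_eq G 1 3 2 2 2 2 2 1 2 2 3 1 (by decide)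
  rw [h, h]
  decide +kernel

theorem KK_3_2 : KKs (fun m => m - 2) 2 3 = 584 ∧
    KKs (fun m => (m - 1) * (m - 2)) 2 3 = 1846 := by
  have h := fun G => KKs_eq G 2 3 2 2 2 2 2 2 3 2 3 2 (by decide)
  rw [h, h]
  decide +kernel

theorem KK_3_3 : KKs (fun m => m - 2) 3 3 = 584 ∧
    KKs (fun m => (m - 1) * (m - 2)) 3 3 = 1846 := by
  have h := fun G => KKs_eq G 3 3 2 2 2 2 3 2 3 3 3 1 (by decide)
  rw [h, h]
  decide +kernel

theorem KK_3_4 : KKs (fun m => m - 2) 4 3 = 584 ∧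
    KKs (fun m => (m - 1) * (m - 2)) 4 3 = 1846 := by
  have h := fun G => KKs_eq G 4 3 2 2 2 2 3 1 3 2 3 0 (by decide)
  rw [h, h]
  decide +kernel

theorem KK_3_5 : KKs (fun m => m - 2) 5 3 = 584 ∧
    KKs (fun m => (m - 1) * (m - 2)) 5 3 = 1846 := by
  have h := fun G => KKs_eq G 5 3 2 2 2 2 2 1 3 1 3 1 (by decide)
  rw [h, h]
  decide +kernel

theorem KK_3_6 : KKs (fun m => m - 2) 6 3 = 584 ∧
    KKs (fun m => (m - 1) * (m - 2)) 6 3 = 1846 := by
  have h := fun G => KKs_eq G 6 3 2 2 2 2 3 1 3 2 4 1 (by decide)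
  rw [h, h]
  decide +kernel

theorem KK_3_7 : KKs (fun m => m - 2) 7 3 = 584 ∧
    KKs (fun m => (m - 1) * (m - 2)) 7 3 = 1846 := by
  have h := fun G => KKs_eq G 7 3 2 2 2 2 3 2 4 2 3 1 (by decide)
  rw [h, h]
  decide +kernel

theorem KK_3 : KK (fun m => m - 2) 3 = 4672 ∧
    KK (fun m => (m - 1) * (m - 2)) 3 = 14768 :=
  ⟨sum8 _ _ KK_3_0.1 KK_3_1.1 KK_3_2.1 KK_3_3.1 KK_3_4.1 KK_3_5.1 KK_3_6.1
      KK_3_7.1 (by norm_num),
    sum8 _ _ KK_3_0.2 KK_3_1.2 KK_3_2.2 KK_3_3.2 KK_3_4.2 KK_3_5.2 KK_3_6.2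
      KK_3_7.2 (by norm_num)⟩

end Pool.Agent.Work.MP_b25393_ag

end
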