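import Mathlib
import Pool.Agent.Work.MP_b25393_ag.Bd.B01

/-! Bundle of small proof modules (one section per former module). -/

section

set_option autoImplicit false

namespace Pool.Agent.Work.MP_b25393_ag

theorem KK_4_0 : KKs (fun m => m - 2) 0 4 = 582 ∧
    KKs (fun m => (m - 1) * (m - 2)) 0 4 = 1840 := by
  have h := fun G => KKs_eq G 0 4 2 2 2 2 2 2 3 2 3 1 (by decide)
  rw [h, h]
  decide +kernel

theorem KK_4_1 : KKs (fun m => m - 2) 1 4 = 582 ∧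
    KKs (fun m => (m - 1) * (m - 2)) 1 4 = 1840 := by
  have h := fun G => KKs_eq G 1 4 2 2 2 2 2 1 3 2 3 1 (by decide)
  rw [h, h]
  decide +kernel

theorem KK_4_2 : KKs (fun m => m - 2) 2 4 = 582 ∧
    KKs (fun m => (m - 1) * (m - 2)) 2 4 = 1840 := by
  have h := fun G => KKs_eq G 2 4 2 2 2 2 2 2 3 2 3 1 (by decide)
  rw [h, h]
  decide +kernel

theorem KK_4_3 : KKs (fun m => m - 2) 3 4 = 582 ∧
    KKs (fun m => (m - 1) * (m - 2)) 3 4 = 1840 := by
  have h := fun G => KKs_eq G 3 4 2 2 2 2 3 2 3 2 3 1 (by decide)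
  rw [h, h]
  decide +kernel

theorem KK_4_4 : KKs (fun m => m - 2) 4 4 = 582 ∧
    KKs (fun m => (m - 1) * (m - 2)) 4 4 = 1840 := by
  have h := fun G => KKs_eq G 4 4 2 2 2 2 3 1 3 2 3 1 (by decide)
  rw [h, h]
  decide +kernel

theorem KK_4_5 : KKs (fun m => m - 2) 5 4 = 582 ∧
    KKs (fun m => (m - 1) * (m - 2)) 5 4 = 1840 := by
  have h := fun G => KKs_eq G 5 4 2 2 2 2 2 1 3 2 3 1 (by decide)
  rw [h, h]
  decide +kernel

theorem KK_4_6 : KKs (fun m => m - 2) 6 4 = 582 ∧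
    KKs (fun m => (m - 1) * (m - 2)) 6 4 = 1840 := by
  have h := fun G => KKs_eq G 6 4 2 2 2 2 3 1 3 2 3 1 (by decide)
  rw [h, h]
  decide +kernel

theorem KK_4_7 : KKs (fun m => m - 2) 7 4 = 582 ∧
    KKs (fun m => (m - 1) * (m - 2)) 7 4 = 1840 := by
  have h := fun G => KKs_eq G 7 4 2 2 2 2 3 2 3 2 3 1 (by decide)
  rw [h, h]
  decide +kernel

theorem KK_4 : KK (fun m => m - 2) 4 = 4656 ∧
    KK (fun m => (m - 1) * (m - 2)) 4 = 14720 :=
  ⟨sum8 _ _ KK_4_0.1 KK_4_1.1 KK_4_2.1 KK_4_3.1 KK_4_4.1 KK_4_5.1 KK_4_6.1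
      KK_4_7.1 (by norm_num),
    sum8 _ _ KK_4_0.2 KK_4_1.2 KK_4_2.2 KK_4_3.2 KK_4_4.2 KK_4_5.2 KK_4_6.2
      KK_4_7.2 (by norm_num)⟩

end Pool.Agent.Work.MP_b25393_ag

end

section

set_option autoImplicit false

open scoped LinearAlgebra.Projectivization

namespace Pool.Agent.Work.MP_b25393_ag

open Projectivization Matrix

/-! ## the affine points and their multiplicities -/

/-- the integral part of the line offset -/
def ee (F : Fin 10) (κ : Fin 12) : ℤ := (fu F * kx κ + fv F * ky κ - 6 * fd F) / 12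

lemma ee_spec : ∀ κ : Fin 12, ∀ F ∈ fam κ, -3 ≤ ee F κ ∧ ee F κ ≤ 2 ∧
    fu F * kx κ + fv F * ky κ = 12 * ee F κ + 6 * fd F := by
  decide

lemma fw_pos (F : Fin 10) : 1 ≤ fw F := by
  revert F; decide

/-- the point with cell `(i,j)`, symmetry `σ`, position `(a,b)` and type `κ` -/
noncomputable def ph (N i j a b : ℤ) (σ : Fin 8) (κ : Fin 12) : PP :=
  pt (12 * (i * N + sa σ N a b) + kx κ) (12 * (j * N + sb σ N a b) + ky κ)

lemma mm_le_mult {N : ℤ} (hN : 1 ≤ N) {τ : Fin 5} {a b : ℤ} (h : base τ N a b) (i j : ℤ)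
    (σ : Fin 8) (κ : Fin 12) : mm κ i j σ τ ≤ mult (AN N) (ph N i j a b σ κ) := by
  classical
  unfold mm
  set f : Fin 10 → (Σ _ : Fin 10, ℤ) := fun F => ⟨F, (fu F * i + fv F * j) * N +
    (fu F * sa σ N a b + fv F * sb σ N a b) + ee F κ⟩ with hf
  have hfi : Function.Injective f := by
    intro F F' hFF
    exact congrArg Sigma.fst hFF
  rw [← Finset.card_image_of_injective _ hfi]
  apply le_mult_AN
  intro q hq
  obtain ⟨F, hF, rfl⟩ := Finset.mem_image.mp hq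
  obtain ⟨hFκ, hact⟩ := Finset.mem_filter.mp hF
  obtain ⟨e1, e2, e3⟩ := ee_spec κ F hFκ
  obtain ⟨s1, s2⟩ := fl_spec h σ F
  obtain ⟨a1, a2⟩ := hact
  constructor
  · rw [mem_LI]
    simp only [hf]
    have h0 : -(fw F) * N ≤ (fu F * i + fv F * j + fl F σ τ) * N :=
      mul_le_mul_of_nonneg_right a1 (by omega)
    have h1 : (fu F * i + fv F * j + fl F σ τ + 1) * N ≤ fw F * N :=
      mul_le_mul_of_nonneg_right a2 (by omega)
    have h2 := fd_cases F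
    have x1 : (fu F * i + fv F * j + fl F σ τ) * N = (fu F * i + fv F * j) * N + fl F σ τ * N := by
      ring
    have x2 : (fu F * i + fv F * j + fl F σ τ + 1) * N
        = (fu F * i + fv F * j) * N + (fl F σ τ + 1) * N := by
      ring
    constructor
    · linarith
    · rcases h2 with h2 | h2 <;> rw [h2] <;> linarith
  · unfold ph
    apply inc_pt_ln
    simp only [hf]
    have : fu F * (12 * (i * N + sa σ N a b) + kx κ) + fv F * (12 * (j * N + sb σ N a b) + ky κ)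
      = 12 * ((fu F * i + fv F * j) * N + (fu F * sa σ N a b + fv F * sb σ N a b))
        + (fu F * kx κ + fv F * ky κ) := by ring
    rw [this, e3]
    ring

lemma k_bounds (κ : Fin 12) : 0 ≤ kx κ ∧ kx κ < 12 ∧ 0 ≤ ky κ ∧ ky κ < 12 := by
  revert κ; decide

lemma k_inj (κ κ' : Fin 12) (h1 : kx κ = kx κ') (h2 : ky κ = ky κ') : κ = κ' := by
  revert κ κ'; decide

lemma div_unique_aux {N x y i i' s s' : ℤ} (hN : 1 ≤ N) (hx : 0 ≤ x) (hx' : x < 12)
    (hy : 0 ≤ y) (hy' : y < 12) (hs : 1 ≤ s) (hs1 : s + 1 ≤ N) (ht : 1 ≤ s') (ht1 : s' + 1 ≤ N)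
    (h : 12 * (i * N + s) + x = 12 * (i' * N + s') + y) : i = i' ∧ s = s' ∧ x = y := by
  have h1 : x = y := by omega
  subst h1
  have h2 : i * N + s = i' * N + s' := by omega
  have h3 : i = i' := by
    rcases lt_trichotomy i i' with h | h | h
    · exfalso
      have : (i + 1) * N ≤ i' * N := mul_le_mul_of_nonneg_right (by omega) (by omega)
      have e : (i + 1) * N = i * N + N := by ring
      omega
    · exact h
    · exfalso
      have : (i' + 1) * N ≤ i * N := mul_le_mul_of_nonneg_right (by omega) (by omega)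
      have e : (i' + 1) * N = i' * N + N := by ring
      omega
  subst h3
  exact ⟨rfl, by omega, rfl⟩

lemma sym_inj {N a b a' b' : ℤ} {σ σ' : Fin 8} (h1 : 3 ≤ b) (h2 : b + 3 ≤ a) (h3 : 2 * a + 3 ≤ N)
    (h1' : 3 ≤ b') (h2' : b' + 3 ≤ a') (h3' : 2 * a' + 3 ≤ N)
    (e1 : sa σ N a b = sa σ' N a' b') (e2 : sb σ N a b = sb σ' N a' b') :
    σ = σ' ∧ a = a' ∧ b = b' := by
  fin_cases σ <;> fin_cases σ' <;> simp [sa, sb] at e1 e2 <;> first
    | (refine ⟨rfl, ?_, ?_⟩ <;> omega)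
    | (exfalso; omega)

lemma ph_inj {N i j a b i' j' a' b' : ℤ} {τ τ' : Fin 5} {σ σ' : Fin 8} {κ κ' : Fin 12}
    (hN : 1 ≤ N) (h : base τ N a b) (h' : base τ' N a' b')
    (e : ph N i j a b σ κ = ph N i' j' a' b' σ' κ') :
    i = i' ∧ j = j' ∧ σ = σ' ∧ κ = κ' ∧ a = a' ∧ b = b' := by
  obtain ⟨e1, e2⟩ := pt_inj e
  obtain ⟨b1, b2, b3, b4⟩ := base_bounds h σ
  obtain ⟨b1', b2', b3', b4'⟩ := base_bounds h' σ'
  obtain ⟨k1, k2, k3, k4⟩ := k_bounds κ
  obtain ⟨k1', k2', k3', k4'⟩ := k_bounds κ'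
  obtain ⟨r1, r2, r3⟩ := div_unique_aux hN k1 k2 k1' k2' b1 b2 b1' b2' e1
  obtain ⟨r4, r5, r6⟩ := div_unique_aux hN k3 k4 k3' k4' b3 b4 b3' b4' e2
  obtain ⟨s1, s2, s3⟩ := sym_inj h.1 h.2.1 h.2.2.1 h'.1 h'.2.1 h'.2.2.1 r2 r5
  exact ⟨r1, r4, s1, k_inj κ κ' r3 r6, s2, s3⟩

end Pool.Agent.Work.MP_b25393_ag

end

section

set_option autoImplicit false

open scoped LinearAlgebra.Projectivization

namespace Pool.Agent.Work.MP_b25393_ag

open Projectivization Matrix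

/-- the cell to which a piece belongs -/
def tt : Fin 7 → Fin 5 := ![0,1,1,2,3,3,4]

/-- the pieces -/
def cond (π : Fin 7) (N a b : ℤ) : Prop := (![
  3 ≤ b ∧ 2 * b + 3 ≤ a ∧ 2 * a + b + 3 ≤ N,
  3 ≤ b ∧ b + 3 ≤ a ∧ a + 3 ≤ 2 * b ∧ 5 * b < N,
  b + 3 ≤ a ∧ 2 * a + b + 3 ≤ N ∧ N + 3 ≤ 5 * b,
  2 * a + 3 ≤ N ∧ N + 3 ≤ 2 * a + b ∧ 2 * b + 3 ≤ a,
  N + 3 ≤ 2 * a + b ∧ a + 2 * b + 3 ≤ N ∧ 5 * a < 2 * N,
  2 * N + 6 ≤ 5 * a ∧ 2 * a + 3 ≤ N ∧ a + 3 ≤ 2 * b ∧ a + 2 * b + 3 ≤ N,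
  2 * a + 3 ≤ N ∧ N + 3 ≤ a + 2 * b ∧ b + 3 ≤ a] : Fin 7 → Prop) π

lemma cond_base {π : Fin 7} {N a b : ℤ} (hN : 60 ≤ N) (h : cond π N a b) :
    base (tt π) N a b := by
  fin_cases π <;> simp [cond] at h <;> simp [base, tt] <;> omega

lemma cond_disj {π π' : Fin 7} {N a b : ℤ} (hN : 60 ≤ N) (h : cond π N a b)
    (h' : cond π' N a b) : π = π' := by
  fin_cases π <;> simp [cond] at h <;> fin_cases π' <;> simp [cond] at h' <;> first
    | rfl
    | (exfalso; omega)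

/-- lattice points of the piece -/
noncomputable def TT (N : ℤ) (π : Fin 7) : Finset (ℤ × ℤ) := by
  classical
  exact ((Finset.Ico 0 N) ×ˢ (Finset.Ico 0 N)).filter (fun ab => cond π N ab.1 ab.2)

lemma mem_TT {N : ℤ} {π : Fin 7} {a b : ℤ} :
    (a, b) ∈ TT N π ↔ (0 ≤ a ∧ a < N) ∧ (0 ≤ b ∧ b < N) ∧ cond π N a b := by
  classical
  unfold TT
  rw [Finset.mem_filter, Finset.mem_product, Finset.mem_Ico, Finset.mem_Ico, and_assoc]

lemma card0 (n : ℤ) (hn : 1 ≤ n) : 2 * (12 * n - 3) * (60 * n - 9)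
    + (-5) * ((12 * n) * (12 * n - 1) - 3 * (3 - 1)) ≤ 4 * ((TT (60 * n) 0).card : ℤ) := by
  apply count_rows _ 3 (12 * n) (60 * n - 9) (-5) (by omega) (fun r => 4 * r + 6)
    (fun r => 60 * n - 3 - r) (fun r => by ring) (fun r c => (c, r))
  · intro r c r' c' h
    rw [Prod.mk.injEq] at h
    exact ⟨h.2, h.1⟩
  · intro r c h1 h2 h3 h4
    rw [mem_TT]
    simp [cond]
    omega

lemma card1 (n : ℤ) (hn : 1 ≤ n) : 2 * (12 * n - 3) * (-12)
    + 2 * ((12 * n) * (12 * n - 1) - 3 * (3 - 1)) ≤ 4 * ((TT (60 * n) 1).card : ℤ) := by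
  apply count_rows _ 3 (12 * n) (-12) 2 (by omega) (fun r => 2 * r + 6)
    (fun r => 4 * r - 6) (fun r => by ring) (fun r c => (c, r))
  · intro r c r' c' h
    rw [Prod.mk.injEq] at h
    exact ⟨h.2, h.1⟩
  · intro r c h1 h2 h3 h4
    rw [mem_TT]
    simp [cond]
    omega

lemma card2 (n : ℤ) (hn : 1 ≤ n) : 2 * (20 * n - (12 * n + 1)) * (60 * n - 9)
    + (-3) * ((20 * n) * (20 * n - 1) - (12 * n + 1) * ((12 * n + 1) - 1))
      ≤ 4 * ((TT (60 * n) 2).card : ℤ) := by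
  apply count_rows _ (12 * n + 1) (20 * n) (60 * n - 9) (-3) (by omega) (fun r => 2 * r + 6)
    (fun r => 60 * n - 3 - r) (fun r => by ring) (fun r c => (c, r))
  · intro r c r' c' h
    rw [Prod.mk.injEq] at h
    exact ⟨h.2, h.1⟩
  · intro r c h1 h2 h3 h4
    rw [mem_TT]
    simp [cond]
    omega

lemma card3 (n : ℤ) (hn : 1 ≤ n) : 2 * ((30 * n - 1) - 24 * n) * (-9 - 120 * n)
    + 5 * ((30 * n - 1) * ((30 * n - 1) - 1) - (24 * n) * ((24 * n) - 1))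
      ≤ 4 * ((TT (60 * n) 3).card : ℤ) := by
  apply count_rows _ (24 * n) (30 * n - 1) (-9 - 120 * n) 5 (by omega)
    (fun r => 120 * n + 6 - 4 * r)
    (fun r => r - 3) (fun r => by ring) (fun r c => (r, c))
  · intro r c r' c' h
    rw [Prod.mk.injEq] at h
    exact h
  · intro r c h1 h2 h3 h4
    rw [mem_TT]
    simp [cond]
    omega

lemma card4 (n : ℤ) (hn : 1 ≤ n) : 2 * (24 * n - 20 * n) * (-9 - 60 * n)
    + 3 * ((24 * n) * ((24 * n) - 1) - (20 * n) * ((20 * n) - 1))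
      ≤ 4 * ((TT (60 * n) 4).card : ℤ) := by
  apply count_rows _ (20 * n) (24 * n) (-9 - 60 * n) 3 (by omega)
    (fun r => 120 * n + 6 - 4 * r)
    (fun r => 60 * n - 3 - r) (fun r => by ring) (fun r c => (r, c))
  · intro r c r' c' h
    rw [Prod.mk.injEq] at h
    exact h
  · intro r c h1 h2 h3 h4
    rw [mem_TT]
    simp [cond]
    omega

lemma card5 (n : ℤ) (hn : 1 ≤ n) : 2 * ((30 * n - 1) - (24 * n + 2)) * (60 * n - 6)
    + (-2) * ((30 * n - 1) * ((30 * n - 1) - 1) - (24 * n + 2) * ((24 * n + 2) - 1))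
      ≤ 4 * ((TT (60 * n) 5).card : ℤ) := by
  apply count_rows _ (24 * n + 2) (30 * n - 1) (60 * n - 6) (-2) (by omega)
    (fun r => r + 3)
    (fun r => 60 * n - 3 - r) (fun r => by ring) (fun r c => (r, c))
  · intro r c r' c' h
    rw [Prod.mk.injEq] at h
    exact h
  · intro r c h1 h2 h3 h4
    rw [mem_TT]
    simp [cond]
    omega

lemma card6 (n : ℤ) (hn : 1 ≤ n) : 2 * ((30 * n - 1) - 20 * n) * (-9 - 60 * n)
    + 3 * ((30 * n - 1) * ((30 * n - 1) - 1) - (20 * n) * ((20 * n) - 1))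
      ≤ 4 * ((TT (60 * n) 6).card : ℤ) := by
  apply count_rows _ (20 * n) (30 * n - 1) (-9 - 60 * n) 3 (by omega)
    (fun r => 60 * n + 3 - r)
    (fun r => 2 * r - 6) (fun r => by ring) (fun r c => (r, c))
  · intro r c r' c' h
    rw [Prod.mk.injEq] at h
    exact h
  · intro r c h1 h2 h3 h4
    rw [mem_TT]
    simp [cond]
    omega

end Pool.Agent.Work.MP_b25393_ag

end

section

set_option autoImplicit false

open scoped LinearAlgebra.Projectivization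

namespace Pool.Agent.Work.MP_b25393_ag

open Projectivization Matrix

lemma sum_verts_ge (A : Finset PP) (G : ℕ → ℕ) (hG0 : ∀ m < 2, G m = 0) (S : Finset PP) :
    ∑ p ∈ S, G (mult A p) ≤ ∑ p ∈ verts A, G (mult A p) := by
  classical
  have h1 : ∑ p ∈ S, G (mult A p) = ∑ p ∈ S.filter (fun p => p ∈ verts A), G (mult A p) := by
    rw [Finset.sum_filter]
    refine Finset.sum_congr rfl fun p _ => ?_
    split_ifs with h
    · rfl
    · apply hG0
      rw [mem_verts] at h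
      omega
  rw [h1]
  apply Finset.sum_le_sum_of_subset
  intro p hp
  exact (Finset.mem_filter.mp hp).2

/-- index set of the affine points -/
noncomputable def Iset (N : ℤ) :
    Finset ((Σ _ : Fin 7, ℤ × ℤ) × (Fin 8 × ℕ × ℕ × Fin 12)) :=
  (Finset.univ.sigma (fun π => TT N π)) ×ˢ
    (Finset.univ ×ˢ Finset.range 20 ×ˢ Finset.range 20 ×ˢ Finset.univ)

/-- the affine points -/
noncomputable def Ph (N : ℤ) (x : (Σ _ : Fin 7, ℤ × ℤ) × (Fin 8 × ℕ × ℕ × Fin 12)) : PP :=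
  ph N ((x.2.2.1 : ℤ) - 10) ((x.2.2.2.1 : ℤ) - 10) x.1.2.1 x.1.2.2 x.2.1 x.2.2.2.2

lemma sum_Iset (N : ℤ) (G : ℕ → ℕ) :
    ∑ x ∈ Iset N, G (mm x.2.2.2.2 ((x.2.2.1 : ℤ) - 10) ((x.2.2.2.1 : ℤ) - 10) x.2.1 (tt x.1.1))
      = ∑ π : Fin 7, (TT N π).card * KK G (tt π) := by
  unfold Iset
  rw [Finset.sum_product, Finset.sum_sigma]
  refine Finset.sum_congr rfl fun π _ => ?_
  have h : ∀ ab ∈ TT N π, ∑ y ∈ ((Finset.univ : Finset (Fin 8)) ×ˢ Finset.range 20 ×ˢ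
      Finset.range 20 ×ˢ (Finset.univ : Finset (Fin 12))),
      G (mm y.2.2.2 ((y.2.1 : ℤ) - 10) ((y.2.2.1 : ℤ) - 10) y.1 (tt π)) = KK G (tt π) := by
    intro ab _
    unfold KK
    rw [Finset.sum_product]
    refine Finset.sum_congr rfl fun σ _ => ?_
    unfold KKs
    rw [Finset.sum_product]
    refine Finset.sum_congr rfl fun i _ => ?_
    rw [Finset.sum_product]
  rw [Finset.sum_congr rfl h, Finset.sum_const, smul_eq_mul]

lemma Ph_injOn (N : ℤ) (hN : 60 ≤ N) : Set.InjOn (Ph N) (Iset N : Set _) := by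
  rintro ⟨⟨π, a, b⟩, σ, i, j, κ⟩ h ⟨⟨π', a', b'⟩, σ', i', j', κ'⟩ h' e
  rw [Finset.mem_coe] at h h'
  unfold Iset at h h'
  rw [Finset.mem_product, Finset.mem_sigma] at h h'
  have c := (mem_TT.mp h.1.2).2.2
  have c' := (mem_TT.mp h'.1.2).2.2
  have b1 := cond_base hN c
  have b1' := cond_base hN c'
  obtain ⟨e1, e2, e3, e4, e5, e6⟩ := ph_inj (by omega) b1 b1' e
  simp only at e1 e2 e3 e4 e5 e6 c c'
  subst e3 e4 e5 e6
  obtain rfl := cond_disj hN c c'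
  have e1' : i = i' := by omega
  have e2' : j = j' := by omega
  subst e1' e2'
  rfl

lemma aff_sum (N : ℤ) (hN : 60 ≤ N) (G : ℕ → ℕ) (hG : Monotone G) [DecidableEq PP] :
    ∑ π : Fin 7, (TT N π).card * KK G (tt π) ≤
      ∑ p ∈ (Iset N).image (Ph N), G (mult (AN N) p) := by
  rw [Finset.sum_image (Ph_injOn N hN), ← sum_Iset]
  apply Finset.sum_le_sum
  rintro ⟨⟨π, a, b⟩, σ, i, j, κ⟩ h
  apply hG
  unfold Iset at h
  rw [Finset.mem_product, Finset.mem_sigma] at h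
  have c := (mem_TT.mp h.1.2).2.2
  have b1 := cond_base hN c
  exact mm_le_mult (by omega) b1 _ _ σ κ

/-- the directions -/
def Dset : Finset (Fin 10) := {0, 2, 4, 5, 6, 7, 8, 9}

/-- number of lines in the given direction, roughly -/
def mD : Fin 10 → ℤ := ![14, 0, 14, 0, 10, 10, 6, 6, 6, 6]

lemma mD_spec : ∀ D ∈ Dset,
    2 * (∑ F ∈ Finset.univ.filter (fun F => fu F = fu D ∧ fv F = fv D), fw F) = mD D ∧
      ∑ F ∈ Finset.univ.filter (fun F => fu F = fu D ∧ fv F = fv D), (1 - fd F) = 1 := by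
  decide

lemma mult_ip (N : ℤ) (hN : 1 ≤ N) (D : Fin 10) (hD : D ∈ Dset) :
    mD D * N + 1 ≤ (mult (AN N) (ip D) : ℤ) := by
  set I : Finset (Fin 10) := Finset.univ.filter (fun F => fu F = fu D ∧ fv F = fv D) with hI
  set S : Finset (Σ _ : Fin 10, ℤ) :=
    I.sigma (fun F => Finset.Ico (-(fw F) * N) (fw F * N + 1 - fd F)) with hS
  have h1 : S.card ≤ mult (AN N) (ip D) := by
    apply le_mult_AN
    rintro ⟨F, j⟩ hq
    rw [hS, Finset.mem_sigma] at hq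
    constructor
    · unfold LI
      rw [Finset.mem_sigma]
      exact ⟨Finset.mem_univ _, hq.2⟩
    · rw [hI, Finset.mem_filter] at hq
      exact inc_ip_ln hq.1.2.1 hq.1.2.2
  have h2 : (S.card : ℤ) = ∑ F ∈ I, (2 * fw F * N + 1 - fd F) := by
    rw [hS, Finset.card_sigma]
    push_cast
    refine Finset.sum_congr rfl fun F _ => ?_
    rw [Int.card_Ico]
    have h3 := fd_cases F
    have h4 : 0 ≤ fw F * N := mul_nonneg (by have := fw_pos F; omega) (by omega)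
    rw [Int.toNat_of_nonneg (by rw [neg_mul]; omega)]
    ring
  have h3 : ∑ F ∈ I, (2 * fw F * N + 1 - fd F)
      = 2 * (∑ F ∈ I, fw F) * N + ∑ F ∈ I, (1 - fd F) := by
    rw [Finset.mul_sum, Finset.sum_mul, ← Finset.sum_add_distrib]
    refine Finset.sum_congr rfl fun F _ => ?_
    ring
  have h4 : 2 * (∑ F ∈ I, fw F) = mD D ∧ ∑ F ∈ I, (1 - fd F) = 1 := by
    rw [hI]
    exact mD_spec D hD
  have h5 : (S.card : ℤ) ≤ mult (AN N) (ip D) := by exact_mod_cast h1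
  rw [h4.1, h4.2] at h3
  omega

lemma mD_pos : ∀ D ∈ Dset, 6 ≤ mD D := by decide

lemma ip_injOn : Set.InjOn ip (Dset : Set (Fin 10)) := by
  intro D hD D' hD' h
  obtain ⟨h1, h2⟩ := ip_inj h
  have : ∀ D ∈ Dset, ∀ D' ∈ Dset, fu D = fu D' → fv D = fv D' → D = D' := by decide
  exact this D hD D' hD' h1 h2

lemma inf_sum (N : ℤ) (hN : 1 ≤ N) [DecidableEq PP] :
    736 * N ^ 2 - 72 * N ≤
      ((∑ p ∈ Dset.image ip, (mult (AN N) p - 1) * (mult (AN N) p - 2) : ℕ) : ℤ) := by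
  rw [Finset.sum_image ip_injOn]
  push_cast
  have h : ∀ D ∈ Dset, (mD D * N) * (mD D * N - 1) ≤
      ((mult (AN N) (ip D) - 1 : ℕ) : ℤ) * ((mult (AN N) (ip D) - 2 : ℕ) : ℤ) := by
    intro D hD
    have h1 := mult_ip N hN D hD
    have h2 := mD_pos D hD
    have h3 : 6 * 1 ≤ mD D * N := mul_le_mul h2 hN (by omega) (by omega)
    apply mul_le_mul <;> omega
  have h2 := Finset.sum_le_sum h
  refine le_trans (le_of_eq ?_) h2
  unfold Dset
  simp [mD]
  ring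

lemma disj_aff_inf (N : ℤ) [DecidableEq PP] :
    Disjoint ((Iset N).image (Ph N)) (Dset.image ip) := by
  rw [Finset.disjoint_left]
  intro p hp hp'
  obtain ⟨x, _, rfl⟩ := Finset.mem_image.mp hp
  obtain ⟨D, _, hD⟩ := Finset.mem_image.mp hp'
  exact ip_ne_pt _ _ _ hD

end Pool.Agent.Work.MP_b25393_ag

end
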